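import Mathlib

/-!
# Weights on finite sets, fields, marginals

MP_a7c826, project Spars (owner helper30). Paper proof: /team-store/a7c826_H.md, section 1.
-/

set_option autoImplicit false
set_option linter.unusedSectionVars false

namespace Spars

open Finset

variable {V : Type*} [Fintype V] [DecidableEq V]

/-- partition function of the weight `w` in the field `y` -/
noncomputable def Z (w : Finset V → ℝ) (y : V → ℝ) : ℝ := ∑ s, w s * Real.exp (∑ v ∈ s, y v)

/-- expectation -/
noncomputable def E (w : Finset V → ℝ) (y : V → ℝ) (f : Finset V → ℝ) : ℝ :=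
  (∑ s, w s * Real.exp (∑ v ∈ s, y v) * f s) / Z w y

/-- probability that `v` belongs to the random set -/
noncomputable def p (w : Finset V → ℝ) (y : V → ℝ) (v : V) : ℝ :=
  E w y (fun s => if v ∈ s then 1 else 0)

/-- log-supermodular weights -/
def Fkg (w : Finset V → ℝ) : Prop := (∀ s, 0 ≤ w s) ∧ ∀ s t, w s * w t ≤ w (s ∩ t) * w (s ∪ t)

variable {w w' : Finset V → ℝ} {y y' : V → ℝ} {f g : Finset V → ℝ}

theorem Z_nonneg (hw : ∀ s, 0 ≤ w s) : 0 ≤ Z w y :=
  sum_nonneg fun s _ => mul_nonneg (hw s) (Real.exp_pos _).le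

theorem Z_pos_of (hw : ∀ s, 0 ≤ w s) {s : Finset V} (hs : 0 < w s) : 0 < Z w y := by
  refine lt_of_lt_of_le (mul_pos hs (Real.exp_pos (∑ v ∈ s, y v))) ?_
  exact single_le_sum (f := fun s => w s * Real.exp (∑ v ∈ s, y v))
    (fun s _ => mul_nonneg (hw s) (Real.exp_pos _).le) (mem_univ s)

theorem Z_mono (h : ∀ s, w' s ≤ w s) : Z w' y ≤ Z w y :=
  sum_le_sum fun s _ => mul_le_mul_of_nonneg_right (h s) (Real.exp_pos _).le

theorem E_const (hZ : 0 < Z w y) (c : ℝ) : E w y (fun _ => c) = c := by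
  unfold E
  rw [← sum_mul]
  exact mul_div_cancel_left₀ _ hZ.ne'

theorem E_add : E w y (fun s => f s + g s) = E w y f + E w y g := by
  unfold E
  rw [← add_div, ← sum_add_distrib]
  congr 1
  exact sum_congr rfl fun s _ => by ring

theorem E_sub : E w y (fun s => f s - g s) = E w y f - E w y g := by
  unfold E
  rw [← sub_div, ← sum_sub_distrib]
  congr 1
  exact sum_congr rfl fun s _ => by ring

theorem E_mul (c : ℝ) : E w y (fun s => c * f s) = c * E w y f := by
  unfold E
  rw [← mul_div_assoc, mul_sum]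
  congr 1
  exact sum_congr rfl fun s _ => by ring

theorem E_sum {ι : Type*} (I : Finset ι) (F : ι → Finset V → ℝ) :
    E w y (fun s => ∑ i ∈ I, F i s) = ∑ i ∈ I, E w y (F i) := by
  unfold E
  rw [← sum_div]
  congr 1
  rw [sum_comm]
  exact sum_congr rfl fun s _ => by rw [mul_sum]

theorem E_mono (hw : ∀ s, 0 ≤ w s) (h : ∀ s, 0 < w s → f s ≤ g s) : E w y f ≤ E w y g := by
  unfold E
  refine div_le_div_of_nonneg_right (sum_le_sum fun s _ => ?_) (Z_nonneg hw)
  rcases (hw s).eq_or_lt with h0 | h0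
  · rw [← h0]
    simp
  · exact mul_le_mul_of_nonneg_left (h s h0) (mul_nonneg h0.le (Real.exp_pos _).le)

theorem E_nonneg (hw : ∀ s, 0 ≤ w s) (h : ∀ s, 0 ≤ f s) : 0 ≤ E w y f :=
  div_nonneg (sum_nonneg fun s _ => mul_nonneg (mul_nonneg (hw s) (Real.exp_pos _).le) (h s))
    (Z_nonneg hw)

theorem p_nonneg (hw : ∀ s, 0 ≤ w s) (v : V) : 0 ≤ p w y v :=
  E_nonneg hw fun s => by split_ifs <;> norm_num

theorem p_le_one (hw : ∀ s, 0 ≤ w s) (hZ : 0 < Z w y) (v : V) : p w y v ≤ 1 := by
  rw [← E_const (w := w) (y := y) hZ 1]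
  exact E_mono hw fun s _ => by split_ifs <;> norm_num

/-- linear statistics -/
theorem E_lin (d : V → ℝ) : E w y (fun s => ∑ v ∈ s, d v) = ∑ v, d v * p w y v := by
  have h1 : ∀ s : Finset V, ∑ v ∈ s, d v = ∑ v, d v * (if v ∈ s then 1 else 0) := by
    intro s
    simp only [mul_ite, mul_one, mul_zero]
    rw [sum_ite_mem, univ_inter]
  rw [show (fun s : Finset V => ∑ v ∈ s, d v) = fun s => ∑ v, d v * (if v ∈ s then 1 else 0) from
    funext h1, E_sum]
  exact sum_congr rfl fun v _ => E_mul _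

/-- change of the field -/
theorem Z_add (d : V → ℝ) (hZ : 0 < Z w y) :
    Z w (fun v => y v + d v) = Z w y * E w y (fun s => Real.exp (∑ v ∈ s, d v)) := by
  unfold E
  rw [mul_div_cancel₀ _ hZ.ne']
  unfold Z
  refine sum_congr rfl fun s _ => ?_
  rw [sum_add_distrib, Real.exp_add]
  ring

/-- Jensen's inequality -/
theorem jensen (hw : ∀ s, 0 ≤ w s) (hZ : 0 < Z w y) :
    Real.exp (E w y f) ≤ E w y (fun s => Real.exp (f s)) := by
  set m := E w y f with hm
  have h1 : E w y (fun s => Real.exp m * (1 + (f s - m))) ≤ E w y (fun s => Real.exp (f s)) := by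
    refine E_mono hw fun s _ => ?_
    have h2 := Real.add_one_le_exp (f s - m)
    calc Real.exp m * (1 + (f s - m)) ≤ Real.exp m * Real.exp (f s - m) :=
          mul_le_mul_of_nonneg_left (by linarith) (Real.exp_pos _).le
      _ = Real.exp (f s) := by rw [← Real.exp_add]; congr 1; ring
  have h2 : E w y (fun s => Real.exp m * (1 + (f s - m))) = Real.exp m := by
    rw [E_mul, E_add, E_sub, E_const hZ, E_const hZ, ← hm]
    ring
  rw [← h2]
  exact h1

/-- lower bound for the partition function after a change of the field -/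
theorem Z_add_ge (hw : ∀ s, 0 ≤ w s) (hZ : 0 < Z w y) (d : V → ℝ) :
    Z w y * Real.exp (∑ v, d v * p w y v) ≤ Z w (fun v => y v + d v) := by
  rw [Z_add d hZ, ← E_lin]
  exact mul_le_mul_of_nonneg_left (jensen hw hZ) hZ.le

theorem Z_add_pos (hw : ∀ s, 0 ≤ w s) (hZ : 0 < Z w y) (y' : V → ℝ) : 0 < Z w y' := by
  have h := Z_add_ge hw hZ (fun v => y' v - y v)
  have h2 : (fun v => y v + (y' v - y v)) = y' := by
    funext v
    ring
  rw [h2] at h
  exact lt_of_lt_of_le (mul_pos hZ (Real.exp_pos _)) h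

/-- expectation after a change of the field -/
theorem E_tilt (d : V → ℝ) (hw : ∀ s, 0 ≤ w s) (hZ : 0 < Z w y) :
    E w (fun v => y v + d v) f * E w y (fun s => Real.exp (∑ v ∈ s, d v)) =
      E w y (fun s => Real.exp (∑ v ∈ s, d v) * f s) := by
  have h1 := Z_add_pos hw hZ (fun v => y v + d v)
  have h2 := Z_add d hZ
  have h3 : 0 < E w y (fun s => Real.exp (∑ v ∈ s, d v)) := by
    rw [h2] at h1
    exact (mul_pos_iff_of_pos_left hZ).1 h1
  conv_lhs => unfold E
  rw [h2]
  unfold E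
  have h4 : ∑ s, w s * Real.exp (∑ v ∈ s, (y v + d v)) * f s =
      ∑ s, w s * Real.exp (∑ v ∈ s, y v) * (Real.exp (∑ v ∈ s, d v) * f s) := by
    refine sum_congr rfl fun s _ => ?_
    rw [sum_add_distrib, Real.exp_add]
    ring
  rw [h4]
  unfold E at h3
  have h5 := h3.ne'
  have h6 : (∑ s, w s * Real.exp (∑ v ∈ s, y v) * Real.exp (∑ v ∈ s, d v)) ≠ 0 := by
    intro h0
    rw [h0, zero_div] at h5
    exact h5 rfl
  field_simp

end Spars
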