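import Pool.Agent.Lib.Spars.Basic

/-!
# Positive correlations and comparison

MP_a7c826, project Spars (owner helper30). Paper proof: /team-store/a7c826_H.md, section 1.
-/

set_option autoImplicit false
set_option linter.unusedSectionVars false

namespace Spars

open Finset

variable {V : Type*} [Fintype V] [DecidableEq V]
variable {w w' : Finset V → ℝ} {y y' : V → ℝ} {f g : Finset V → ℝ}

theorem Fkg.nonneg (h : Fkg w) (s : Finset V) : 0 ≤ w s := h.1 s

theorem fkg_pos (hw : Fkg w) (hZ : 0 < Z w y) (hf : Monotone f) (hg : Monotone g)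
    (hf0 : ∀ s, 0 ≤ f s) (hg0 : ∀ s, 0 ≤ g s) :
    E w y f * E w y g ≤ E w y (fun s => f s * g s) := by
  have key := fkg (α := Finset V) (β := ℝ) (μ := fun s => w s * Real.exp (∑ v ∈ s, y v)) (f := f) (g := g)
    (fun s => mul_nonneg (hw.1 s) (Real.exp_pos _).le) (fun s => hf0 s) (fun s => hg0 s) hf hg
    (fun s t => by
      have h1 := hw.2 s t
      have h2 : Real.exp (∑ v ∈ s, y v) * Real.exp (∑ v ∈ t, y v) =
          Real.exp (∑ v ∈ s ∩ t, y v) * Real.exp (∑ v ∈ s ∪ t, y v) := by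
        rw [← Real.exp_add, ← Real.exp_add, add_comm (∑ v ∈ s ∩ t, y v), sum_union_inter]
      calc w s * Real.exp (∑ v ∈ s, y v) * (w t * Real.exp (∑ v ∈ t, y v))
          = w s * w t * (Real.exp (∑ v ∈ s, y v) * Real.exp (∑ v ∈ t, y v)) := by ring
        _ ≤ w (s ∩ t) * w (s ∪ t) * (Real.exp (∑ v ∈ s, y v) * Real.exp (∑ v ∈ t, y v)) :=
            mul_le_mul_of_nonneg_right h1 (mul_nonneg (Real.exp_pos _).le (Real.exp_pos _).le)
        _ = w (s ⊓ t) * Real.exp (∑ v ∈ s ⊓ t, y v) * (w (s ⊔ t) * Real.exp (∑ v ∈ s ⊔ t, y v)) := by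
            rw [h2, inf_eq_inter, sup_eq_union]
            ring)
  unfold E
  rw [div_mul_div_comm, div_le_div_iff₀ (mul_pos hZ hZ) hZ]
  have h3 : Z w y = ∑ s, w s * Real.exp (∑ v ∈ s, y v) := rfl
  rw [← h3] at key
  nlinarith [key, hZ]

/-- FKG inequality -/
theorem fkg_E (hw : Fkg w) (hZ : 0 < Z w y) (hf : Monotone f) (hg : Monotone g) :
    E w y f * E w y g ≤ E w y (fun s => f s * g s) := by
  have h := fkg_pos (f := fun s => f s - f ∅) (g := fun s => g s - g ∅) hw hZ
    (fun s t hst => sub_le_sub_right (hf hst) _) (fun s t hst => sub_le_sub_right (hg hst) _)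
    (fun s => sub_nonneg.2 (hf (empty_subset s))) (fun s => sub_nonneg.2 (hg (empty_subset s)))
  have e1 : E w y (fun s => f s - f ∅) = E w y f - f ∅ := by rw [E_sub, E_const hZ]
  have e2 : E w y (fun s => g s - g ∅) = E w y g - g ∅ := by rw [E_sub, E_const hZ]
  have e3 : E w y (fun s => (f s - f ∅) * (g s - g ∅)) =
      E w y (fun s => f s * g s) - g ∅ * E w y f - f ∅ * E w y g + f ∅ * g ∅ := by
    have : (fun s => (f s - f ∅) * (g s - g ∅)) =
        fun s => (f s * g s - g ∅ * f s - f ∅ * g s) + f ∅ * g ∅ := by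
      funext s
      ring
    rw [this, E_add, E_sub, E_sub, E_mul, E_mul, E_const hZ]
  rw [e1, e2, e3] at h
  nlinarith [h]

theorem ind_mono (v : V) : Monotone (fun s : Finset V => if v ∈ s then (1 : ℝ) else 0) := by
  intro s t hst
  dsimp only
  split_ifs with h1 h2 h2
  · exact le_rfl
  · exact absurd (hst h1) h2
  · norm_num
  · exact le_rfl

theorem E_field_mono (hw : Fkg w) (hZ : 0 < Z w y) (hf : Monotone f) (hy : ∀ v, y v ≤ y' v) :
    E w y f ≤ E w y' f := by
  set d : V → ℝ := fun v => y' v - y v with hd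
  have e : (fun v => y v + d v) = y' := by
    funext v
    simp [hd]
  have hdm : Monotone (fun s : Finset V => Real.exp (∑ v ∈ s, d v)) := by
    intro s t hst
    exact Real.exp_le_exp.2 (sum_le_sum_of_subset_of_nonneg hst
      fun v _ _ => sub_nonneg.2 (hy v))
  have h1 := fkg_E hw hZ hdm hf
  have h2 := E_tilt (f := f) d hw.1 hZ
  rw [e] at h2
  have h3 : 0 < E w y (fun s => Real.exp (∑ v ∈ s, d v)) := by
    have := Z_add_pos hw.1 hZ (fun v => y v + d v)
    rw [Z_add d hZ] at this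
    exact (mul_pos_iff_of_pos_left hZ).1 this
  rw [← h2, mul_comm] at h1
  exact le_of_mul_le_mul_right h1 h3

theorem p_field_mono (hw : Fkg w) (hZ : 0 < Z w y) (hy : ∀ v, y v ≤ y' v) (v : V) :
    p w y v ≤ p w y' v := E_field_mono hw hZ (ind_mono v) hy

/-- covariances are nonnegative -/
theorem cov_nonneg (hw : Fkg w) (hZ : 0 < Z w y) (u v : V) :
    p w y u * p w y v ≤ E w y (fun s => if u ∈ s ∧ v ∈ s then 1 else 0) := by
  refine (fkg_E hw hZ (ind_mono u) (ind_mono v)).trans (le_of_eq ?_)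
  congr 1
  funext s
  by_cases h1 : u ∈ s <;> by_cases h2 : v ∈ s <;> simp [h1, h2]

/-! ### Constant fields -/

/-- partition function in a constant field -/
noncomputable def Zh (w : Finset V → ℝ) (h : ℝ) : ℝ := Z w (fun _ => h)

/-- marginal in a constant field -/
noncomputable def ph (w : Finset V → ℝ) (h : ℝ) (v : V) : ℝ := p w (fun _ => h) v

theorem Zh_eq (w : Finset V → ℝ) (h : ℝ) : Zh w h = ∑ s, w s * Real.exp (s.card * h) := by
  unfold Zh Z
  refine sum_congr rfl fun s _ => ?_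
  rw [sum_const, nsmul_eq_mul]

theorem Zh_pos_iff (hw : ∀ s, 0 ≤ w s) {h h' : ℝ} (hZ : 0 < Zh w h) : 0 < Zh w h' :=
  Z_add_pos hw hZ _

theorem ph_mono (hw : Fkg w) {h h' : ℝ} (hZ : 0 < Zh w h) (hh : h ≤ h') (v : V) :
    ph w h v ≤ ph w h' v := p_field_mono hw hZ (fun _ => hh) v

/-- comparison of marginals -/
theorem compare {h l K : ℝ} (hw : Fkg w) (hw' : ∀ s, 0 ≤ w' s) (hle : ∀ s, w' s ≤ w s)
    (hZ' : 0 < Zh w' h) (hl : 0 < l) (hK : Real.log (Zh w h) - Real.log (Zh w' h) ≤ K) :
    ∑ v, max (ph w' h v - ph w (h + l) v) 0 + ∑ v, max (ph w (h - l) v - ph w' h v) 0 ≤ K / l := by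
  have hZ : 0 < Zh w h := lt_of_lt_of_le hZ' (Z_mono hle)
  have hZm : 0 < Zh w (h - l) := Zh_pos_iff hw.1 hZ
  set d : V → ℝ := fun v => if ph w (h + l) v < ph w' h v then l
    else if ph w' h v < ph w (h - l) v then -l else 0 with hd
  have hdl : ∀ v, -l ≤ d v ∧ d v ≤ l := by
    intro v
    simp only [hd]
    split_ifs <;> constructor <;> linarith
  set y : V → ℝ := fun v => h + d v with hy
  have hZy : 0 < Z w y := Z_add_pos hw.1 hZ _
  -- lower bound for w'
  have h1 := Z_add_ge hw' hZ' d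
  -- upper bound for w
  have h2 := Z_add_ge hw.1 hZy (fun v => - d v)
  have e1 : (fun v => y v + - d v) = fun _ => h := by
    funext v
    simp [hy]
  rw [e1] at h2
  have h3 : Z w' y ≤ Z w y := Z_mono hle
  have hZ'0 : 0 < Z w' (fun _ => h) := hZ'
  have hZ0 : 0 < Z w (fun _ => h) := hZ
  have h4 : Real.log (Zh w' h) + ∑ v, d v * ph w' h v ≤ Real.log (Z w y) := by
    have := Real.log_le_log (mul_pos hZ'0 (Real.exp_pos _)) (h1.trans h3)
    rw [Real.log_mul hZ'0.ne' (Real.exp_pos _).ne', Real.log_exp] at this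
    exact this
  have h5 : Real.log (Z w y) - ∑ v, d v * p w y v ≤ Real.log (Zh w h) := by
    have := Real.log_le_log (mul_pos hZy (Real.exp_pos _)) h2
    rw [Real.log_mul hZy.ne' (Real.exp_pos _).ne', Real.log_exp] at this
    simp only [neg_mul, sum_neg_distrib] at this
    exact this
  have h6 : ∑ v, d v * (ph w' h v - p w y v) ≤ K := by
    simp only [mul_sub, sum_sub_distrib]
    linarith
  have hup : ∀ v, p w y v ≤ ph w (h + l) v := fun v =>
    p_field_mono hw hZy (fun u => by simp only [hy]; linarith [(hdl u).2]) v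
  have hlo : ∀ v, ph w (h - l) v ≤ p w y v := fun v =>
    p_field_mono hw hZm (fun u => by simp only [hy]; linarith [(hdl u).1]) v
  have hmid : ∀ v, ph w (h - l) v ≤ ph w (h + l) v := fun v => (hlo v).trans (hup v)
  have h7 : ∀ v, l * (max (ph w' h v - ph w (h + l) v) 0 + max (ph w (h - l) v - ph w' h v) 0) ≤
      d v * (ph w' h v - p w y v) := by
    intro v
    have a1 := hup v
    have a2 := hlo v
    have a3 := hmid v
    simp only [hd]
    split_ifs with c1 c2
    · rw [max_eq_left (by linarith), max_eq_right (by linarith)]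
      nlinarith
    · rw [max_eq_right (by linarith), max_eq_left (by linarith)]
      nlinarith
    · rw [max_eq_right (by linarith), max_eq_right (by linarith)]
      simp
  have h8 : l * (∑ v, max (ph w' h v - ph w (h + l) v) 0 +
      ∑ v, max (ph w (h - l) v - ph w' h v) 0) ≤ K := by
    rw [← sum_add_distrib, mul_sum]
    exact (sum_le_sum fun v _ => h7 v).trans h6
  rw [le_div_iff₀ hl, mul_comm]
  exact h8

end Spars
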