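import Pool.Agent.Lib.Spars.Prog

/-!
# Freezing the nearly frozen vertices

MP_a7c826, project Spars (owner helper30). Paper proof: /team-store/a7c826_H.md, section 3.
-/

set_option autoImplicit false
set_option linter.unusedSectionVars false

namespace Spars

open Finset Classical

variable {V : Type*} [Fintype V]

/-- number of closed sets -/
noncomputable def cnt (H : Finset (V × V)) : ℕ := (univ.filter (fun s : Finset V => Cl H s)).card

theorem cnt_le_Zh (H : Finset (V × V)) {h : ℝ} (hh : 0 ≤ h) : (cnt H : ℝ) ≤ Zh (wH H) h := by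
  rw [Zh_eq]
  unfold cnt
  rw [card_eq_sum_ones, sum_filter]
  push_cast
  refine sum_le_sum fun s _ => ?_
  unfold wH
  split_ifs
  · rw [one_mul]
    exact Real.one_le_exp (mul_nonneg (Nat.cast_nonneg _) hh)
  · simp

theorem cnt_pos (H : Finset (V × V)) : 0 < cnt H :=
  card_pos.2 ⟨∅, mem_filter.2 ⟨mem_univ _, fun _ _ h => absurd h (notMem_empty _)⟩⟩

/-- deviation of `s` from the frozen values: `0` on `F0`, `1` on `F1` -/
noncomputable def dev (F0 F1 s : Finset V) : Finset V := (s ∩ F0) ∪ (F1 \ s)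

/-- freezing -/
noncomputable def fr (F0 F1 s : Finset V) : Finset V := (s \ F0) ∪ F1

theorem dev_subset (F0 F1 s : Finset V) : dev F0 F1 s ⊆ F0 ∪ F1 := by
  unfold dev
  intro v hv
  rw [mem_union, mem_inter, mem_sdiff] at hv
  rw [mem_union]
  tauto

theorem dev_inj {F0 F1 s s' : Finset V} (hd : Disjoint F0 F1) (h1 : fr F0 F1 s = fr F0 F1 s')
    (h2 : dev F0 F1 s = dev F0 F1 s') : s = s' := by
  ext v
  have a1 := Finset.ext_iff.1 h1 v
  have a2 := Finset.ext_iff.1 h2 v
  unfold fr at a1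
  unfold dev at a2
  simp only [mem_union, mem_sdiff, mem_inter] at a1 a2
  have a3 : v ∈ F0 → v ∉ F1 := fun h => disjoint_left.1 hd h
  tauto


theorem sum_dev_le {F0 F1 : Finset V} (hd : Disjoint F0 F1) (g : V → ℝ) (hg : ∀ v, 0 ≤ g v)
    (K T : Finset (Finset V)) (hKT : ∀ s ∈ K, fr F0 F1 s ∈ T) :
    ∑ s ∈ K, ∏ v ∈ dev F0 F1 s, g v ≤ T.card * ∏ v ∈ F0 ∪ F1, (1 + g v) := by
  rw [← sum_fiberwise_of_maps_to hKT, ← nsmul_eq_mul, ← sum_const]
  refine sum_le_sum fun t _ => ?_
  have hinj : Set.InjOn (dev F0 F1) (K.filter (fun s => fr F0 F1 s = t) : Finset (Finset V)) := by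
    intro s hs s' hs' h
    have b1 := (mem_filter.1 (mem_coe.1 hs)).2
    have b2 := (mem_filter.1 (mem_coe.1 hs')).2
    exact dev_inj hd (b1.trans b2.symm) h
  rw [prod_one_add, ← sum_image (g := dev F0 F1) (f := fun X => ∏ v ∈ X, g v) hinj]
  refine sum_le_sum_of_subset_of_nonneg ?_ fun X _ _ => prod_nonneg fun v _ => hg v
  intro X hX
  obtain ⟨s, _, rfl⟩ := mem_image.1 hX
  exact mem_powerset.2 (dev_subset F0 F1 s)

/-- the frozen sets -/
theorem freeze (G H : Finset (V × V)) (A : V → Prop) (hGA : ∀ e ∈ G, A e.1 ∧ ¬ A e.2) (hHG : H ⊆ G)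
    (R : Finset V) {h η Λ : ℝ} (hh : 0 ≤ h) (hη : 0 ≤ η) (hΛ : 0 ≤ Λ)
    (hfr : ∀ e ∈ G, e ∉ H → e.1 ∉ R → e.2 ∉ R → ph (wH H) h e.1 ≤ η ∨ 1 - ph (wH H) h e.2 ≤ η) :
    (cnt H : ℝ) ≤ cnt G * Real.exp (Fintype.card V * (Λ * η + h + Real.exp (-Λ)) + R.card) := by
  set n : ℝ := (Fintype.card V : ℝ) with hn
  have hn0 : 0 ≤ n := Nat.cast_nonneg _
  set A0 : Finset V := univ.filter (fun v => v ∉ R ∧ A v ∧ ph (wH H) h v ≤ η) with hA0
  set B0 : Finset V := univ.filter (fun v => v ∉ R ∧ ¬ A v ∧ 1 - ph (wH H) h v ≤ η) with hB0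
  set F0 : Finset V := univ.filter (fun v => A v ∧ (v ∈ R ∨ v ∈ A0)) with hF0
  set F1 : Finset V := univ.filter (fun v => ¬ A v ∧ (v ∈ R ∨ v ∈ B0)) with hF1
  have hd : Disjoint F0 F1 := by
    rw [disjoint_left]
    intro v h1 h2
    exact (mem_filter.1 h2).2.1 (mem_filter.1 h1).2.1
  set T : Finset (Finset V) := univ.filter (fun s => Cl H s ∧ Disjoint s F0 ∧ F1 ⊆ s) with hT
  -- frozen closed sets are closed for `G`
  have hTG : T.card ≤ cnt G := by
    refine card_le_card fun s hs => ?_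
    obtain ⟨h1, h2, h3⟩ := (mem_filter.1 hs).2
    refine mem_filter.2 ⟨mem_univ _, fun e he h4 => ?_⟩
    by_cases heH : e ∈ H
    · exact h1 e heH h4
    · have hA := hGA e he
      by_cases hR1 : e.1 ∈ R
      · exact absurd (mem_filter.2 ⟨mem_univ _, hA.1, Or.inl hR1⟩ : e.1 ∈ F0)
          (disjoint_left.1 h2 h4)
      · by_cases hR2 : e.2 ∈ R
        · exact h3 (mem_filter.2 ⟨mem_univ _, hA.2, Or.inl hR2⟩)
        · rcases hfr e he heH hR1 hR2 with h5 | h5
          · have : e.1 ∈ A0 := mem_filter.2 ⟨mem_univ _, hR1, hA.1, h5⟩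
            exact absurd (mem_filter.2 ⟨mem_univ _, hA.1, Or.inr this⟩ : e.1 ∈ F0)
              (disjoint_left.1 h2 h4)
          · have : e.2 ∈ B0 := mem_filter.2 ⟨mem_univ _, hR2, hA.2, h5⟩
            exact h3 (mem_filter.2 ⟨mem_univ _, hA.2, Or.inr this⟩)
  -- freezing preserves closed sets
  have hKT : ∀ s ∈ univ.filter (fun s : Finset V => Cl H s), fr F0 F1 s ∈ T := by
    intro s hs
    have h1 := (mem_filter.1 hs).2
    refine mem_filter.2 ⟨mem_univ _, fun e he h4 => ?_, ?_, ?_⟩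
    · have hA := hGA e (hHG he)
      unfold fr at h4 ⊢
      rw [mem_union, mem_sdiff] at h4 ⊢
      rcases h4 with ⟨h5, _⟩ | h5
      · left
        exact ⟨h1 e he h5, fun h6 => hA.2 (mem_filter.1 h6).2.1⟩
      · exact absurd hA.1 (mem_filter.1 h5).2.1
    · rw [disjoint_left]
      intro v h4 h5
      unfold fr at h4
      rw [mem_union, mem_sdiff] at h4
      rcases h4 with h4 | h4
      · exact h4.2 h5
      · exact disjoint_left.1 hd h5 h4
    · intro v hv
      unfold fr
      exact mem_union_right _ hv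
  -- weights
  set g : V → ℝ := fun v => if v ∈ R then 1 else Real.exp (-Λ) with hg
  have hg0 : ∀ v, 0 ≤ g v := fun v => by
    simp only [hg]
    split_ifs
    · norm_num
    · exact (Real.exp_pos _).le
  set kk : Finset V → ℝ := fun s => ∑ v ∈ A0, (if v ∈ s then (1 : ℝ) else 0) +
    ∑ v ∈ B0, (1 - if v ∈ s then (1 : ℝ) else 0) with hkk
  have hprod : ∀ s, ∏ v ∈ dev F0 F1 s, g v = Real.exp (-Λ * kk s) := by
    intro s
    have e1 : ∏ v ∈ dev F0 F1 s, g v = ∏ v ∈ (dev F0 F1 s).filter (fun v => v ∉ R), Real.exp (-Λ) := by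
      rw [prod_filter]
      refine prod_congr rfl fun v _ => ?_
      simp only [hg]
      by_cases h : v ∈ R <;> simp [h]
    have e2 : (dev F0 F1 s).filter (fun v => v ∉ R) = A0.filter (fun v => v ∈ s) ∪
        B0.filter (fun v => v ∉ s) := by
      ext v
      simp only [dev, hF0, hF1, hA0, hB0, mem_filter, mem_union, mem_inter, mem_sdiff, mem_univ,
        true_and]
      tauto
    have e3 : Disjoint (A0.filter (fun v => v ∈ s)) (B0.filter (fun v => v ∉ s)) := by
      rw [disjoint_left]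
      intro v h1 h2
      exact (mem_filter.1 h2).2 (mem_filter.1 h1).2
    rw [e1, e2, prod_const, card_union_of_disjoint e3, ← Real.exp_nat_mul]
    congr 1
    simp only [hkk]
    have e4 : ∑ v ∈ A0, (if v ∈ s then (1 : ℝ) else 0) = (A0.filter (fun v => v ∈ s)).card := by
      rw [← sum_filter, sum_const, nsmul_eq_mul, mul_one]
    have e5 : ∑ v ∈ B0, (1 - if v ∈ s then (1 : ℝ) else 0) = (B0.filter (fun v => v ∉ s)).card := by
      have : ∀ v ∈ B0, (1 - if v ∈ s then (1 : ℝ) else 0) = if v ∉ s then 1 else 0 := by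
        intro v _
        by_cases h : v ∈ s <;> simp [h]
      rw [sum_congr rfl this, ← sum_filter, sum_const, nsmul_eq_mul, mul_one]
    rw [e4, e5]
    push_cast
    ring
  -- lower bound by Jensen
  have hw := wH_fkg H
  have hZ : 0 < Z (wH H) (fun _ => h) := Zh_wH_pos H h
  have hEk : Eh (wH H) h kk ≤ η * n := by
    have e1 : Eh (wH H) h kk = ∑ v ∈ A0, ph (wH H) h v + ∑ v ∈ B0, (1 - ph (wH H) h v) := by
      have a1 : Eh (wH H) h kk = Eh (wH H) h (fun s => ∑ v ∈ A0, (if v ∈ s then (1 : ℝ) else 0)) +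
          Eh (wH H) h (fun s => ∑ v ∈ B0, (1 - if v ∈ s then (1 : ℝ) else 0)) := E_add
      have a2 : Eh (wH H) h (fun s => ∑ v ∈ A0, (if v ∈ s then (1 : ℝ) else 0)) =
          ∑ v ∈ A0, ph (wH H) h v := E_sum _ _
      have a3 : Eh (wH H) h (fun s => ∑ v ∈ B0, (1 - if v ∈ s then (1 : ℝ) else 0)) =
          ∑ v ∈ B0, Eh (wH H) h (fun s => 1 - if v ∈ s then (1 : ℝ) else 0) := E_sum _ _
      rw [a1, a2, a3]
      congr 1
      refine sum_congr rfl fun v _ => ?_
      have a4 : Eh (wH H) h (fun s => 1 - if v ∈ s then (1 : ℝ) else 0) =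
          Eh (wH H) h (fun _ => 1) - ph (wH H) h v := E_sub
      rw [a4]
      congr 1
      exact E_const hZ 1
    have e2 : ∑ v ∈ A0, ph (wH H) h v ≤ ∑ v ∈ A0, η :=
      sum_le_sum fun v hv => (mem_filter.1 hv).2.2.2
    have e3 : ∑ v ∈ B0, (1 - ph (wH H) h v) ≤ ∑ v ∈ B0, η :=
      sum_le_sum fun v hv => (mem_filter.1 hv).2.2.2
    rw [sum_const, nsmul_eq_mul] at e2 e3
    have e4 : A0.card + B0.card ≤ Fintype.card V := by
      have hdis : Disjoint A0 B0 := by
        rw [disjoint_left]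
        intro v h1 h2
        exact (mem_filter.1 h2).2.2.1 (mem_filter.1 h1).2.2.1
      rw [← card_union_of_disjoint hdis]
      exact card_le_univ _
    have e5 : (A0.card : ℝ) + B0.card ≤ n := by
      rw [hn]
      exact_mod_cast e4
    rw [e1]
    nlinarith
  have hlow : Zh (wH H) h * Real.exp (-Λ * (η * n)) ≤
      ∑ s ∈ univ.filter (fun s : Finset V => Cl H s), Real.exp (s.card * h) * Real.exp (-Λ * kk s) := by
    have h1 := jensen (f := fun s => -Λ * kk s) hw.1 hZ
    have h2 : E (wH H) (fun _ => h) (fun s => -Λ * kk s) = -Λ * Eh (wH H) h kk := E_mul _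
    rw [h2] at h1
    have h3 : Real.exp (-Λ * (η * n)) ≤ Real.exp (-Λ * Eh (wH H) h kk) := by
      refine Real.exp_le_exp.2 ?_
      nlinarith
    have h4 := mul_le_mul_of_nonneg_left (h3.trans h1) hZ.le
    refine h4.trans (le_of_eq ?_)
    have h5 : Z (wH H) (fun _ => h) * E (wH H) (fun _ => h) (fun s => Real.exp (-Λ * kk s)) =
        ∑ s, wH H s * Real.exp (∑ v ∈ s, h) * Real.exp (-Λ * kk s) := by
      unfold E
      rw [mul_div_cancel₀ _ hZ.ne']
    rw [h5, sum_filter]
    refine sum_congr rfl fun s _ => ?_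
    unfold wH
    rw [sum_const, nsmul_eq_mul]
    split_ifs <;> simp
  have hup : ∑ s ∈ univ.filter (fun s : Finset V => Cl H s),
      Real.exp (s.card * h) * Real.exp (-Λ * kk s) ≤
      Real.exp (n * h) * (T.card * ∏ v ∈ F0 ∪ F1, (1 + g v)) := by
    calc ∑ s ∈ univ.filter (fun s : Finset V => Cl H s),
        Real.exp (s.card * h) * Real.exp (-Λ * kk s)
        ≤ ∑ s ∈ univ.filter (fun s : Finset V => Cl H s),
          Real.exp (n * h) * ∏ v ∈ dev F0 F1 s, g v := by
          refine sum_le_sum fun s _ => ?_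
          rw [hprod s]
          refine mul_le_mul_of_nonneg_right (Real.exp_le_exp.2 ?_) (Real.exp_pos _).le
          refine mul_le_mul_of_nonneg_right ?_ hh
          rw [hn]
          exact_mod_cast card_le_univ s
      _ = Real.exp (n * h) * ∑ s ∈ univ.filter (fun s : Finset V => Cl H s),
          ∏ v ∈ dev F0 F1 s, g v := by rw [mul_sum]
      _ ≤ _ := mul_le_mul_of_nonneg_left (sum_dev_le hd g hg0 _ T hKT) (Real.exp_pos _).le
  have hpr : ∏ v ∈ F0 ∪ F1, (1 + g v) ≤ Real.exp (n * Real.exp (-Λ) + R.card) := by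
    have h1 : ∀ v ∈ F0 ∪ F1, 1 + g v ≤ Real.exp ((if v ∈ R then 1 else 0) + Real.exp (-Λ)) := by
      intro v _
      simp only [hg]
      split_ifs
      · have h2 := Real.add_one_le_exp (1 + Real.exp (-Λ))
        have h3 := Real.exp_pos (-Λ)
        linarith
      · have h2 := Real.add_one_le_exp (0 + Real.exp (-Λ))
        linarith
    refine (prod_le_prod (fun v _ => by linarith [hg0 v]) h1).trans ?_
    rw [← Real.exp_sum]
    refine Real.exp_le_exp.2 ?_
    rw [sum_add_distrib, sum_const, nsmul_eq_mul]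
    have h2 : ∑ v ∈ F0 ∪ F1, (if v ∈ R then (1 : ℝ) else 0) ≤ R.card := by
      rw [← sum_filter, sum_const, nsmul_eq_mul, mul_one]
      exact_mod_cast card_le_card fun v hv => (mem_filter.1 hv).2
    have h3 : ((F0 ∪ F1).card : ℝ) * Real.exp (-Λ) ≤ n * Real.exp (-Λ) := by
      refine mul_le_mul_of_nonneg_right ?_ (Real.exp_pos _).le
      rw [hn]
      exact_mod_cast card_le_univ _
    linarith
  have hfin : Zh (wH H) h * Real.exp (-Λ * (η * n)) ≤
      Real.exp (n * h) * (cnt G * Real.exp (n * Real.exp (-Λ) + R.card)) := by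
    refine (hlow.trans hup).trans (mul_le_mul_of_nonneg_left ?_ (Real.exp_pos _).le)
    exact mul_le_mul (by exact_mod_cast hTG) hpr
      (prod_nonneg fun v _ => by linarith [hg0 v]) (Nat.cast_nonneg _)
  have h1 := cnt_le_Zh H hh
  calc (cnt H : ℝ) ≤ Zh (wH H) h := h1
    _ = Zh (wH H) h * Real.exp (-Λ * (η * n)) * Real.exp (Λ * (η * n)) := by
        rw [mul_assoc, ← Real.exp_add]
        have : -Λ * (η * n) + Λ * (η * n) = 0 := by ring
        rw [this, Real.exp_zero, mul_one]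
    _ ≤ Real.exp (n * h) * (cnt G * Real.exp (n * Real.exp (-Λ) + R.card)) *
        Real.exp (Λ * (η * n)) := mul_le_mul_of_nonneg_right hfin (Real.exp_pos _).le
    _ = cnt G * Real.exp (n * (Λ * η + h + Real.exp (-Λ)) + R.card) := by
        have : Real.exp (n * (Λ * η + h + Real.exp (-Λ)) + R.card) =
            Real.exp (n * h) * Real.exp (n * Real.exp (-Λ) + R.card) * Real.exp (Λ * (η * n)) := by
          rw [← Real.exp_add, ← Real.exp_add]
          congr 1
          ring
        rw [this]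
        ring

end Spars
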