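import Pool.Agent.Lib.Spars.Freeze

/-!
# The iteration

MP_a7c826, project Spars (owner helper30). Paper proof: /team-store/a7c826_H.md, sections 3 and 4.
-/

set_option autoImplicit false
set_option linter.unusedSectionVars false

namespace Spars

open Finset Classical

variable {V : Type*} [Fintype V]

/-- degree as a first coordinate -/
noncomputable def dg1 (D : Finset (V × V)) (v : V) : ℕ := (D.filter (fun e => e.1 = v)).card

/-- degree as a second coordinate -/
noncomputable def dg2 (D : Finset (V × V)) (v : V) : ℕ := (D.filter (fun e => e.2 = v)).card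

theorem dg1_union (H D : Finset (V × V)) (v : V) : dg1 (H ∪ D) v ≤ dg1 H v + dg1 D v := by
  unfold dg1
  rw [filter_union]
  exact card_union_le _ _

theorem dg2_union (H D : Finset (V × V)) (v : V) : dg2 (H ∪ D) v ≤ dg2 H v + dg2 D v := by
  unfold dg2
  rw [filter_union]
  exact card_union_le _ _

/-- maximal subset of bounded degree -/
theorem exists_max (E : Finset (V × V)) (C : ℕ) : ∃ D ⊆ E, (∀ v, dg1 D v ≤ C) ∧ (∀ v, dg2 D v ≤ C) ∧
    ∀ e ∈ E, e ∉ D → C ≤ dg1 D e.1 ∨ C ≤ dg2 D e.2 := by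
  obtain ⟨D, hD, hmax⟩ := exists_max_image
    (E.powerset.filter (fun D => (∀ v, dg1 D v ≤ C) ∧ ∀ v, dg2 D v ≤ C)) (fun D => D.card)
    ⟨∅, mem_filter.2 ⟨mem_powerset.2 (empty_subset _), fun v => by simp [dg1], fun v => by
      simp [dg2]⟩⟩
  obtain ⟨h1, h2, h3⟩ := mem_filter.1 hD
  refine ⟨D, mem_powerset.1 h1, h2, h3, fun e he heD => ?_⟩
  by_contra hcon
  push Not at hcon
  have h4 : insert e D ∈ E.powerset.filter (fun D => (∀ v, dg1 D v ≤ C) ∧ ∀ v, dg2 D v ≤ C) := by
    refine mem_filter.2 ⟨mem_powerset.2 (insert_subset he (mem_powerset.1 h1)), fun v => ?_,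
      fun v => ?_⟩
    · unfold dg1
      rw [filter_insert]
      split_ifs with h5
      · refine (card_insert_le _ _).trans ?_
        have := hcon.1
        rw [h5] at this
        exact this
      · exact h2 v
    · unfold dg2
      rw [filter_insert]
      split_ifs with h5
      · refine (card_insert_le _ _).trans ?_
        have := hcon.2
        rw [h5] at this
        exact this
      · exact h3 v
  have h5 := hmax _ h4
  rw [card_insert_of_notMem heD] at h5
  omega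

/-- Markov's inequality -/
theorem markov (u : V → ℝ) (hu : ∀ v, 0 ≤ u v) {θ K : ℝ} (hθ : 0 < θ) (h : ∑ v, u v ≤ K * θ) :
    ((univ.filter (fun v => θ < u v)).card : ℝ) ≤ K := by
  have h1 : ((univ.filter (fun v => θ < u v)).card : ℝ) * θ ≤ ∑ v, u v := by
    calc ((univ.filter (fun v => θ < u v)).card : ℝ) * θ = ∑ v ∈ univ.filter (fun v => θ < u v), θ := by
          rw [sum_const, nsmul_eq_mul]
      _ ≤ ∑ v ∈ univ.filter (fun v => θ < u v), u v :=
          sum_le_sum fun v hv => (mem_filter.1 hv).2.le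
      _ ≤ ∑ v, u v := sum_le_sum_of_subset_of_nonneg (filter_subset _ _) fun v _ _ => hu v
  exact le_of_mul_le_mul_right (h1.trans h) hθ

theorem sat_card (D : Finset (V × V)) (π : V × V → V) {C : ℕ} (hC : 0 < C) {K : ℝ}
    (hD : (D.card : ℝ) ≤ C * K) :
    ((univ.filter (fun v => C ≤ (D.filter (fun e => π e = v)).card)).card : ℝ) ≤ K := by
  have h1 : (univ.filter (fun v => C ≤ (D.filter (fun e => π e = v)).card)).card * C ≤ D.card := by
    calc (univ.filter (fun v => C ≤ (D.filter (fun e => π e = v)).card)).card * C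
        = ∑ v ∈ univ.filter (fun v => C ≤ (D.filter (fun e => π e = v)).card), C := by
          rw [sum_const, smul_eq_mul]
      _ ≤ ∑ v ∈ univ.filter (fun v => C ≤ (D.filter (fun e => π e = v)).card),
          (D.filter (fun e => π e = v)).card := sum_le_sum fun v hv => (mem_filter.1 hv).2
      _ ≤ ∑ v, (D.filter (fun e => π e = v)).card :=
          sum_le_sum_of_subset (filter_subset _ _)
      _ = D.card := by
          rw [card_eq_sum_card_fiberwise (f := π) (t := univ) (fun _ _ => mem_coe.2 (mem_univ _))]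
  have h2 : ((univ.filter (fun v => C ≤ (D.filter (fun e => π e = v)).card)).card : ℝ) * C ≤
      K * C := by
    refine le_trans (by exact_mod_cast h1) (hD.trans (le_of_eq ?_))
    ring
  exact le_of_mul_le_mul_right h2 (by exact_mod_cast hC)

theorem tele (f : ℕ → ℝ) (N : ℕ) : ∑ i ∈ range N, (f (i + 4) - f i) =
    (f N + f (N + 1) + f (N + 2) + f (N + 3)) - (f 0 + f 1 + f 2 + f 3) := by
  induction N with
  | zero => simp
  | succ N ih =>
    rw [sum_range_succ, ih]
    have : N + 1 + 3 = N + 4 := by omega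
    rw [this, show N + 1 + 1 = N + 2 by omega, show N + 1 + 2 = N + 3 by omega]
    ring

/-- parameters -/
structure Par (ρ θ δ η Λ : ℝ) (J C : ℕ) : Prop where
  δ0 : 0 < δ
  δ1 : δ ≤ 1
  θ0 : 0 < θ
  θ1 : θ ≤ 1
  ρ0 : 0 < ρ
  ρ1 : ρ ≤ 1
  hC : 4 / (ρ * θ * (ρ * θ * δ / 8)) ≤ C
  C0 : 0 < C
  η0 : 0 ≤ η
  hη : 9 * θ ≤ η ^ 2
  Λ0 : 0 ≤ Λ
  hJ : 4 ≤ J * (ρ * θ)

/-- the logarithm of the partition function at the `j`-th grid point -/
noncomputable def LZ (δ : ℝ) (H : Finset (V × V)) (j : ℕ) : ℝ := Real.log (Zh (wH H) (j * δ))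

/-- one round -/
theorem step {ρ θ δ η Λ : ℝ} {J C : ℕ} (P : Par ρ θ δ η Λ J C) (G H : Finset (V × V)) (A : V → Prop)
    (hGA : ∀ e ∈ G, A e.1 ∧ ¬ A e.2) (hHG : H ⊆ G) (hn : 0 < Fintype.card V) :
    ∃ D ⊆ G, (∀ v, dg1 D v ≤ C) ∧ (∀ v, dg2 D v ≤ C) ∧
      ((∃ j ≤ J + 1, ρ * θ * δ / 8 * Fintype.card V < LZ δ H j - LZ δ (H ∪ D) j) ∨
      (cnt (H ∪ D) : ℝ) ≤ cnt G *
        Real.exp (Fintype.card V * (Λ * η + (J + 1) * δ + Real.exp (-Λ) + 4 * ρ))) := by
  set n : ℝ := (Fintype.card V : ℝ) with hnn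
  have hn0 : 0 < n := by rw [hnn]; exact_mod_cast hn
  have hδ := P.δ0
  have hθ := P.θ0
  have hρ := P.ρ0
  have hρθ : 0 < ρ * θ := mul_pos hρ hθ
  have hw := wH_fkg H
  have hZw := Zh_wH_pos H
  set f : ℕ → ℝ := fun i => ∑ v, ph (wH H) (i * δ) v with hf
  have hf0 : ∀ i, 0 ≤ f i := fun i => sum_nonneg fun v _ => p_nonneg hw.1 v
  have hf1 : ∀ i, f i ≤ n := fun i => by
    have : f i ≤ ∑ v : V, (1 : ℝ) := sum_le_sum fun v _ => p_le_one hw.1 (hZw _) v
    rwa [sum_const, card_univ, nsmul_eq_mul, mul_one] at this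
  obtain ⟨i, hiJ, hi⟩ : ∃ i < J, f (i + 4) - f i ≤ ρ * θ * n := by
    by_contra hcon
    push Not at hcon
    have hJ0 : (range J).Nonempty := by
      rw [nonempty_range_iff]
      rintro rfl
      have := P.hJ
      simp at this
      linarith
    have h1 : ∑ i ∈ range J, ρ * θ * n < ∑ i ∈ range J, (f (i + 4) - f i) :=
      sum_lt_sum_of_nonempty hJ0 fun i hi => hcon i (mem_range.1 hi)
    rw [tele, sum_const, card_range, nsmul_eq_mul] at h1
    have h2 := P.hJ
    have h3 : 4 * n ≤ J * (ρ * θ * n) := by nlinarith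
    linarith [hf0 0, hf0 1, hf0 2, hf0 3, hf1 J, hf1 (J + 1), hf1 (J + 2), hf1 (J + 3)]
  set h0 : ℝ := ((i + 2 : ℕ) : ℝ) * δ with hh0
  have hh00 : 0 ≤ h0 := by rw [hh0]; positivity
  have e1 : h0 - δ = ((i + 1 : ℕ) : ℝ) * δ := by rw [hh0]; push_cast; ring
  have e2 : h0 + δ = ((i + 3 : ℕ) : ℝ) * δ := by rw [hh0]; push_cast; ring
  have e3 : ((i : ℕ) : ℝ) * δ ≤ h0 - δ := by rw [e1]; push_cast; nlinarith
  have e4 : h0 + δ ≤ ((i + 4 : ℕ) : ℝ) * δ := by rw [e2]; push_cast; nlinarith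
  set E : Finset (V × V) := G.filter
    (fun e => θ ≤ ph (wH H) (h0 - δ) e.1 * (1 - ph (wH H) (h0 + δ) e.2)) with hE
  obtain ⟨D, hDE, hD1, hD2, hmax⟩ := exists_max E C
  have hDG : D ⊆ G := hDE.trans (filter_subset _ _)
  refine ⟨D, hDG, hD1, hD2, ?_⟩
  by_cases hbig : C * ρ * n ≤ D.card
  · left
    refine ⟨i + 2, by omega, ?_⟩
    exact progress H D hδ P.δ1 hθ P.θ1 hρ P.ρ1 P.hC hn hD1 hD2 hbig
      (fun e he => (mem_filter.1 (hDE he)).2)
  · by_cases hprog : ρ * θ * δ / 8 * n < LZ δ H (i + 2) - LZ δ (H ∪ D) (i + 2)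
    · left
      exact ⟨i + 2, by omega, hprog⟩
    · right
      push Not at hbig hprog
      have hZ' := Zh_wH_pos (H ∪ D) h0
      have hle : ∀ s, wH (H ∪ D) s ≤ wH H s := fun s => (wH_union_le H D s).trans (wS_le H D s)
      have hcmp := compare (w := wH H) (w' := wH (H ∪ D)) (h := h0) hw (wH_nonneg _) hle hZ' hδ hprog
      have hcmp' : ∑ v, (max (ph (wH (H ∪ D)) h0 v - ph (wH H) (h0 + δ) v) 0 +
          max (ph (wH H) (h0 - δ) v - ph (wH (H ∪ D)) h0 v) 0) ≤ (ρ * n) * θ := by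
        rw [sum_add_distrib]
        refine hcmp.trans ?_
        rw [div_le_iff₀ hδ]
        have : 0 < ρ * n * θ * δ := by positivity
        nlinarith
      set R1 : Finset V := univ.filter (fun v => C ≤ dg1 D v) with hR1
      set R1' : Finset V := univ.filter (fun v => C ≤ dg2 D v) with hR1'
      set R2 : Finset V := univ.filter
        (fun v => θ < ph (wH H) ((i + 4 : ℕ) * δ) v - ph (wH H) (i * δ) v) with hR2
      set R3 : Finset V := univ.filter
        (fun v => θ < max (ph (wH (H ∪ D)) h0 v - ph (wH H) (h0 + δ) v) 0 +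
          max (ph (wH H) (h0 - δ) v - ph (wH (H ∪ D)) h0 v) 0) with hR3
      have hDc : (D.card : ℝ) ≤ C * (ρ * n) := by
        refine hbig.le.trans (le_of_eq ?_)
        ring
      have c1 : (R1.card : ℝ) ≤ ρ * n := sat_card D Prod.fst P.C0 hDc
      have c1' : (R1'.card : ℝ) ≤ ρ * n := sat_card D Prod.snd P.C0 hDc
      have hmono4 : ∀ v, ph (wH H) (i * δ) v ≤ ph (wH H) ((i + 4 : ℕ) * δ) v := fun v =>
        ph_mono hw (hZw _) (by push_cast; nlinarith) v
      have c2 : (R2.card : ℝ) ≤ ρ * n := by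
        refine markov _ (fun v => sub_nonneg.2 (hmono4 v)) hθ ?_
        rw [sum_sub_distrib]
        refine hi.trans (le_of_eq ?_)
        ring
      have c3 : (R3.card : ℝ) ≤ ρ * n :=
        markov _ (fun v => add_nonneg (le_max_right _ _) (le_max_right _ _)) hθ hcmp'
      set R : Finset V := R1 ∪ (R1' ∪ (R2 ∪ R3)) with hR
      have hRc : (R.card : ℝ) ≤ 4 * ρ * n := by
        have a1 : R.card ≤ R1.card + (R1'.card + (R2.card + R3.card)) := by
          refine (card_union_le _ _).trans (Nat.add_le_add_left ?_ _)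
          refine (card_union_le _ _).trans (Nat.add_le_add_left ?_ _)
          exact card_union_le _ _
        have a2 : (R.card : ℝ) ≤ R1.card + (R1'.card + (R2.card + R3.card)) := by exact_mod_cast a1
        linarith
      have hfr : ∀ e ∈ G, e ∉ H ∪ D → e.1 ∉ R → e.2 ∉ R →
          ph (wH (H ∪ D)) h0 e.1 ≤ η ∨ 1 - ph (wH (H ∪ D)) h0 e.2 ≤ η := by
        intro e heG he h1 h2
        simp only [hR, mem_union, not_or] at h1 h2 he
        obtain ⟨h1a, h1b, h1c, h1d⟩ := h1
        obtain ⟨h2a, h2b, h2c, h2d⟩ := h2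
        have heE : e ∉ E := by
          intro heE
          rcases hmax e heE he.2 with h3 | h3
          · exact h1a (mem_filter.2 ⟨mem_univ _, h3⟩)
          · exact h2b (mem_filter.2 ⟨mem_univ _, h3⟩)
        have hPQ : ph (wH H) (h0 - δ) e.1 * (1 - ph (wH H) (h0 + δ) e.2) < θ := by
          by_contra hcon
          push Not at hcon
          exact heE (mem_filter.2 ⟨heG, hcon⟩)
        have k1 : ph (wH H) ((i + 4 : ℕ) * δ) e.1 - ph (wH H) (i * δ) e.1 ≤ θ := by
          by_contra hcon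
          push Not at hcon
          exact h1c (mem_filter.2 ⟨mem_univ _, hcon⟩)
        have k2 : ph (wH H) ((i + 4 : ℕ) * δ) e.2 - ph (wH H) (i * δ) e.2 ≤ θ := by
          by_contra hcon
          push Not at hcon
          exact h2c (mem_filter.2 ⟨mem_univ _, hcon⟩)
        have k3 : max (ph (wH (H ∪ D)) h0 e.1 - ph (wH H) (h0 + δ) e.1) 0 +
            max (ph (wH H) (h0 - δ) e.1 - ph (wH (H ∪ D)) h0 e.1) 0 ≤ θ := by
          by_contra hcon
          push Not at hcon
          exact h1d (mem_filter.2 ⟨mem_univ _, hcon⟩)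
        have k4 : max (ph (wH (H ∪ D)) h0 e.2 - ph (wH H) (h0 + δ) e.2) 0 +
            max (ph (wH H) (h0 - δ) e.2 - ph (wH (H ∪ D)) h0 e.2) 0 ≤ θ := by
          by_contra hcon
          push Not at hcon
          exact h2d (mem_filter.2 ⟨mem_univ _, hcon⟩)
        have l1 := le_max_left (ph (wH (H ∪ D)) h0 e.1 - ph (wH H) (h0 + δ) e.1) 0
        have l2 := le_max_right (ph (wH H) (h0 - δ) e.1 - ph (wH (H ∪ D)) h0 e.1) 0
        have l3 := le_max_right (ph (wH (H ∪ D)) h0 e.2 - ph (wH H) (h0 + δ) e.2) 0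
        have l4 := le_max_left (ph (wH H) (h0 - δ) e.2 - ph (wH (H ∪ D)) h0 e.2) 0
        have m1 : ph (wH H) (h0 + δ) e.1 ≤ ph (wH H) ((i + 4 : ℕ) * δ) e.1 :=
          ph_mono hw (hZw _) e4 _
        have m2 : ph (wH H) (i * δ) e.1 ≤ ph (wH H) (h0 - δ) e.1 := ph_mono hw (hZw _) e3 _
        have m3 : ph (wH H) (h0 + δ) e.2 ≤ ph (wH H) ((i + 4 : ℕ) * δ) e.2 :=
          ph_mono hw (hZw _) e4 _
        have m4 : ph (wH H) (i * δ) e.2 ≤ ph (wH H) (h0 - δ) e.2 := ph_mono hw (hZw _) e3 _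
        have q0 : 0 ≤ ph (wH H) (h0 - δ) e.1 := p_nonneg hw.1 _
        have q1 : ph (wH H) (h0 - δ) e.1 ≤ 1 := p_le_one hw.1 (hZw _) _
        have q2 : ph (wH H) (h0 + δ) e.2 ≤ 1 := p_le_one hw.1 (hZw _) _
        have q3 : 0 ≤ ph (wH H) (h0 + δ) e.2 := p_nonneg hw.1 _
        have r1 : ph (wH (H ∪ D)) h0 e.1 ≤ ph (wH H) (h0 - δ) e.1 + 2 * θ := by linarith
        have r2 : 1 - ph (wH (H ∪ D)) h0 e.2 ≤ 1 - ph (wH H) (h0 + δ) e.2 + 2 * θ := by linarith
        by_contra hcon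
        push Not at hcon
        have hθ1 := P.θ1
        have hη0 := P.η0
        have s1 : η ^ 2 < (ph (wH H) (h0 - δ) e.1 + 2 * θ) * (1 - ph (wH H) (h0 + δ) e.2 + 2 * θ) := by
          have t1 : η < ph (wH H) (h0 - δ) e.1 + 2 * θ := lt_of_lt_of_le hcon.1 r1
          have t2 : η < 1 - ph (wH H) (h0 + δ) e.2 + 2 * θ := lt_of_lt_of_le hcon.2 r2
          nlinarith
        have s2 := P.hη
        have s3 : (ph (wH H) (h0 - δ) e.1 + 2 * θ) * (1 - ph (wH H) (h0 + δ) e.2 + 2 * θ) ≤ 9 * θ := by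
          have u1 : 2 * θ * ph (wH H) (h0 - δ) e.1 ≤ 2 * θ := by nlinarith
          have u2 : 2 * θ * (1 - ph (wH H) (h0 + δ) e.2) ≤ 2 * θ := by nlinarith
          have u3 : 4 * θ * θ ≤ 4 * θ := by nlinarith
          nlinarith
        linarith
      have hHDG : H ∪ D ⊆ G := union_subset hHG hDG
      have hmain := freeze G (H ∪ D) A hGA hHDG R hh00 P.η0 P.Λ0 hfr
      refine hmain.trans (mul_le_mul_of_nonneg_left (Real.exp_le_exp.2 ?_) (Nat.cast_nonneg _))
      have hh0J : h0 ≤ (J + 1) * δ := by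
        rw [hh0]
        refine mul_le_mul_of_nonneg_right ?_ hδ.le
        have : i + 2 ≤ J + 1 := by omega
        exact_mod_cast this
      have v1 : n * h0 ≤ n * ((J + 1) * δ) := mul_le_mul_of_nonneg_left hh0J hn0.le
      nlinarith

theorem LZ_nonneg {δ : ℝ} (hδ : 0 ≤ δ) (H : Finset (V × V)) (j : ℕ) : 0 ≤ LZ δ H j := by
  refine Real.log_nonneg ?_
  have h1 := cnt_le_Zh H (h := j * δ) (by positivity)
  have h2 : (1 : ℝ) ≤ cnt H := by exact_mod_cast cnt_pos H
  linarith

theorem LZ_anti {δ : ℝ} (H D : Finset (V × V)) (j : ℕ) : LZ δ (H ∪ D) j ≤ LZ δ H j :=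
  Real.log_le_log (Zh_wH_pos _ _)
    (Z_mono fun s => (wH_union_le H D s).trans (wS_le H D s))

/-- the iteration -/
theorem iter {ρ θ δ η Λ : ℝ} {J C : ℕ} (P : Par ρ θ δ η Λ J C) (G : Finset (V × V)) (A : V → Prop)
    (hGA : ∀ e ∈ G, A e.1 ∧ ¬ A e.2) (hn : 0 < Fintype.card V) (m : ℕ) :
    ∀ H ⊆ G, ∑ j ∈ range (J + 2), LZ δ H j ≤ m * (ρ * θ * δ / 8 * Fintype.card V) →
    ∃ H' ⊆ G, (∀ v, dg1 H' v ≤ dg1 H v + (m + 1) * C) ∧ (∀ v, dg2 H' v ≤ dg2 H v + (m + 1) * C) ∧
      (cnt H' : ℝ) ≤ cnt G *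
        Real.exp (Fintype.card V * (Λ * η + (J + 1) * δ + Real.exp (-Λ) + 4 * ρ)) := by
  have hc : 0 ≤ ρ * θ * δ / 8 * (Fintype.card V : ℝ) := by
    have h1 := P.δ0
    have h2 := P.θ0
    have h3 := P.ρ0
    positivity
  induction m with
  | zero =>
    intro H hHG hΨ
    obtain ⟨D, hDG, hD1, hD2, h | h⟩ := step P G H A hGA hHG hn
    · exfalso
      obtain ⟨j, hj, hlt⟩ := h
      have h1 : LZ δ H j ≤ ∑ j ∈ range (J + 2), LZ δ H j :=
        single_le_sum (f := fun j => LZ δ H j) (fun j _ => LZ_nonneg P.δ0.le H j)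
          (mem_range.2 (by omega))
      have h2 := LZ_nonneg P.δ0.le (H ∪ D) j
      push_cast at hΨ
      linarith
    · refine ⟨H ∪ D, union_subset hHG hDG, fun v => ?_, fun v => ?_, h⟩
      · refine (dg1_union H D v).trans ?_
        have := hD1 v
        omega
      · refine (dg2_union H D v).trans ?_
        have := hD2 v
        omega
  | succ m ih =>
    intro H hHG hΨ
    obtain ⟨D, hDG, hD1, hD2, h | h⟩ := step P G H A hGA hHG hn
    · obtain ⟨j, hj, hlt⟩ := h
      have hjm : j ∈ range (J + 2) := mem_range.2 (by omega)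
      have h1 : ∑ j ∈ range (J + 2), LZ δ (H ∪ D) j ≤
          ∑ j ∈ range (J + 2), LZ δ H j - ρ * θ * δ / 8 * Fintype.card V := by
        rw [← add_sum_erase _ _ hjm, ← add_sum_erase (range (J + 2)) (fun j => LZ δ H j) hjm]
        have h2 : ∑ x ∈ (range (J + 2)).erase j, LZ δ (H ∪ D) x ≤
            ∑ x ∈ (range (J + 2)).erase j, LZ δ H x := sum_le_sum fun x _ => LZ_anti H D x
        linarith
      have h3 : ∑ j ∈ range (J + 2), LZ δ (H ∪ D) j ≤ m * (ρ * θ * δ / 8 * Fintype.card V) := by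
        push_cast at hΨ
        linarith
      obtain ⟨H', hH'G, g1, g2, g3⟩ := ih (H ∪ D) (union_subset hHG hDG) h3
      refine ⟨H', hH'G, fun v => ?_, fun v => ?_, g3⟩
      · have a1 := g1 v
        have a2 := dg1_union H D v
        have a3 := hD1 v
        have a4 : (m + 1 + 1) * C = (m + 1) * C + C := by ring
        omega
      · have a1 := g2 v
        have a2 := dg2_union H D v
        have a3 := hD2 v
        have a4 : (m + 1 + 1) * C = (m + 1) * C + C := by ring
        omega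
    · refine ⟨H ∪ D, union_subset hHG hDG, fun v => ?_, fun v => ?_, h⟩
      · have a2 := dg1_union H D v
        have a3 := hD1 v
        have a4 : (m + 1 + 1) * C = (m + 1) * C + C := by ring
        omega
      · have a2 := dg2_union H D v
        have a3 := hD2 v
        have a4 : (m + 1 + 1) * C = (m + 1) * C + C := by ring
        omega

end Spars
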