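import Pool.Agent.Lib.Spars.Iter
import Pool.Agent.Lib.Pa7c826.Indep

/-!
# Bounded-degree sparsifiers

MP_a7c826, project Spars (owner helper30). Paper proof: /team-store/a7c826_H.md, section 4.
-/

set_option autoImplicit false
set_option linter.unusedSectionVars false

namespace Spars

open Finset Classical Pool.Agent.Lib.Pa7c826

variable {V : Type*} [Fintype V]

/-- constant in `1 / (ρ θ) = ka q ^ 5` -/
def ka : ℕ := 18874368

/-- `J = kb q ^ 5` -/
def kb : ℕ := 75497472

/-- number of grid points -/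
def pJ (q : ℕ) : ℕ := kb * q ^ 5

/-- maximal degree in one round -/
def pC (q : ℕ) : ℕ := 512 * q * (pJ q + 1) * (ka * q ^ 5) ^ 2

/-- number of rounds -/
def pm (q : ℕ) : ℕ := 128 * (pJ q + 2) * (ka * q ^ 5) * (q * (pJ q + 1))

theorem par_ok {q : ℕ} (hq : 1 ≤ q) :
    Par (1 / (32 * (q : ℝ))) (1 / (589824 * (q : ℝ) ^ 4)) (1 / (16 * q * ((pJ q : ℝ) + 1)))
      (1 / (256 * (q : ℝ) ^ 2)) (16 * q) (pJ q) (pC q) := by
  have hq1 : (1 : ℝ) ≤ q := by exact_mod_cast hq
  have hq0 : (0 : ℝ) < q := by linarith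
  have hJ0 : (0 : ℝ) ≤ pJ q := Nat.cast_nonneg _
  have hpow : ∀ k : ℕ, (1 : ℝ) ≤ (q : ℝ) ^ k := fun k => one_le_pow₀ hq1
  refine ⟨by positivity, ?_, by positivity, ?_, by positivity, ?_, ?_, ?_, by positivity, ?_,
    by positivity, ?_⟩
  · rw [div_le_one (by positivity)]
    nlinarith
  · rw [div_le_one (by positivity)]
    have := hpow 4
    linarith
  · rw [div_le_one (by positivity)]
    linarith
  · refine le_of_eq ?_
    have : (pC q : ℝ) = 512 * q * ((pJ q : ℝ) + 1) * (18874368 * (q : ℝ) ^ 5) ^ 2 := by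
      unfold pC ka
      push_cast
      ring
    rw [this]
    field_simp
    ring
  · unfold pC ka
    positivity
  · refine le_of_eq ?_
    field_simp
    norm_num
  · refine le_of_eq ?_
    have : (pJ q : ℝ) = 75497472 * (q : ℝ) ^ 5 := by
      unfold pJ kb
      push_cast
      ring
    rw [this]
    field_simp
    norm_num

theorem Zh_empty_le (h : ℝ) (hh : 0 ≤ h) :
    Real.log (Zh (wH (∅ : Finset (V × V))) h) ≤ Fintype.card V * (Real.log 2 + h) := by
  have h1 : Zh (wH (∅ : Finset (V × V))) h ≤ 2 ^ Fintype.card V * Real.exp (Fintype.card V * h) := by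
    rw [Zh_eq]
    calc ∑ s : Finset V, wH ∅ s * Real.exp (s.card * h)
        ≤ ∑ s : Finset V, Real.exp (Fintype.card V * h) := by
          refine sum_le_sum fun s _ => ?_
          have h2 : wH (∅ : Finset (V × V)) s ≤ 1 := by
            unfold wH
            split_ifs <;> norm_num
          have h3 : Real.exp (s.card * h) ≤ Real.exp (Fintype.card V * h) := by
            refine Real.exp_le_exp.2 (mul_le_mul_of_nonneg_right ?_ hh)
            exact_mod_cast card_le_univ s
          calc wH ∅ s * Real.exp (s.card * h) ≤ 1 * Real.exp (Fintype.card V * h) :=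
                mul_le_mul h2 h3 (Real.exp_pos _).le zero_le_one
            _ = _ := one_mul _
      _ = _ := by
          rw [sum_const, card_univ, Fintype.card_finset, nsmul_eq_mul]
          push_cast
          rfl
  have h2 := Real.log_le_log (Zh_wH_pos _ _) h1
  rw [Real.log_mul (by positivity) (Real.exp_pos _).ne', Real.log_exp, Real.log_pow] at h2
  linarith

theorem exp_bound {q : ℕ} (hq : 1 ≤ q) :
    16 * (q : ℝ) * (1 / (256 * (q : ℝ) ^ 2)) +
      ((pJ q : ℝ) + 1) * (1 / (16 * q * ((pJ q : ℝ) + 1))) + Real.exp (-(16 * (q : ℝ))) +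
      4 * (1 / (32 * (q : ℝ))) ≤ Real.log 2 * (1 / q) := by
  have hq1 : (1 : ℝ) ≤ q := by exact_mod_cast hq
  have hq0 : (0 : ℝ) < q := by linarith
  have hJ0 : (0 : ℝ) ≤ pJ q := Nat.cast_nonneg _
  have e1 : 16 * (q : ℝ) * (1 / (256 * (q : ℝ) ^ 2)) = 1 / 16 * (1 / q) := by
    field_simp
    norm_num
  have e2 : ((pJ q : ℝ) + 1) * (1 / (16 * q * ((pJ q : ℝ) + 1))) = 1 / 16 * (1 / q) := by
    have : (pJ q : ℝ) + 1 ≠ 0 := by positivity
    field_simp
  have e3 : Real.exp (-(16 * (q : ℝ))) ≤ 1 / 16 * (1 / q) := by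
    rw [Real.exp_neg]
    have h1 := Real.add_one_le_exp (16 * (q : ℝ))
    have h2 : 16 * (q : ℝ) ≤ Real.exp (16 * q) := by linarith
    have h3 : (Real.exp (16 * (q : ℝ)))⁻¹ ≤ (16 * (q : ℝ))⁻¹ := inv_anti₀ (by positivity) h2
    refine h3.trans (le_of_eq ?_)
    field_simp
  have e4 : 4 * (1 / (32 * (q : ℝ))) = 1 / 8 * (1 / q) := by
    field_simp
    norm_num
  have e5 : (5 / 16 : ℝ) ≤ Real.log 2 := by
    have := Real.log_two_gt_d9
    linarith
  have e6 : (0 : ℝ) < 1 / q := by positivity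
  rw [e1, e2, e4]
  nlinarith

/-- sets of pairs -/
theorem main_pairs {q : ℕ} (hq : 1 ≤ q) (G : Finset (V × V)) (A : V → Prop)
    (hGA : ∀ e ∈ G, A e.1 ∧ ¬ A e.2) (hn : 0 < Fintype.card V) :
    ∃ H ⊆ G, (∀ v, dg1 H v ≤ (pm q + 1) * pC q) ∧ (∀ v, dg2 H v ≤ (pm q + 1) * pC q) ∧
      (cnt H : ℝ) ≤ 2 ^ ((Fintype.card V : ℝ) / q) * cnt G := by
  have hq1 : (1 : ℝ) ≤ q := by exact_mod_cast hq
  have hq0 : (0 : ℝ) < q := by linarith
  have hJ0 : (0 : ℝ) ≤ pJ q := Nat.cast_nonneg _
  have P := par_ok hq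
  have hn0 : (0 : ℝ) < Fintype.card V := by exact_mod_cast hn
  have hstart : ∑ j ∈ range (pJ q + 2), LZ (1 / (16 * q * ((pJ q : ℝ) + 1))) (∅ : Finset (V × V)) j ≤
      pm q * (1 / (32 * (q : ℝ)) * (1 / (589824 * (q : ℝ) ^ 4)) * (1 / (16 * q * ((pJ q : ℝ) + 1))) /
        8 * Fintype.card V) := by
    have h1 : ∀ j ∈ range (pJ q + 2),
        LZ (1 / (16 * q * ((pJ q : ℝ) + 1))) (∅ : Finset (V × V)) j ≤ Fintype.card V := by
      intro j hj
      refine (Zh_empty_le _ (by positivity)).trans ?_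
      have h2 : (j : ℝ) * (1 / (16 * q * ((pJ q : ℝ) + 1))) ≤ 1 / 16 := by
        have h3 : (j : ℝ) ≤ (pJ q : ℝ) + 1 := by
          have : j ≤ pJ q + 1 := by
            have := mem_range.1 hj
            omega
          exact_mod_cast this
        have h4 : (j : ℝ) * (1 / (16 * q * ((pJ q : ℝ) + 1))) ≤
            ((pJ q : ℝ) + 1) * (1 / (16 * q * ((pJ q : ℝ) + 1))) :=
          mul_le_mul_of_nonneg_right h3 (by positivity)
        have h5 : ((pJ q : ℝ) + 1) * (1 / (16 * q * ((pJ q : ℝ) + 1))) = 1 / 16 * (1 / q) := by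
          have : (pJ q : ℝ) + 1 ≠ 0 := by positivity
          field_simp
        have h6 : 1 / (q : ℝ) ≤ 1 := by
          rw [div_le_one hq0]
          exact hq1
        linarith
      have h3 := Real.log_two_lt_d9
      have h4 : Real.log 2 + (j : ℝ) * (1 / (16 * q * ((pJ q : ℝ) + 1))) ≤ 1 := by linarith
      calc (Fintype.card V : ℝ) * (Real.log 2 + (j : ℝ) * (1 / (16 * q * ((pJ q : ℝ) + 1))))
          ≤ Fintype.card V * 1 := mul_le_mul_of_nonneg_left h4 hn0.le
        _ = _ := mul_one _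
    refine (sum_le_sum h1).trans (le_of_eq ?_)
    rw [sum_const, card_range, nsmul_eq_mul]
    have : (pm q : ℝ) = 128 * ((pJ q : ℝ) + 2) * (18874368 * (q : ℝ) ^ 5) * (q * ((pJ q : ℝ) + 1)) := by
      unfold pm ka
      push_cast
      ring
    rw [this]
    push_cast
    have : (pJ q : ℝ) + 1 ≠ 0 := by positivity
    field_simp
    norm_num
  obtain ⟨H, hHG, h1, h2, h3⟩ := iter P G A hGA hn (pm q) ∅ (empty_subset _) hstart
  refine ⟨H, hHG, fun v => ?_, fun v => ?_, h3.trans ?_⟩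
  · have := h1 v
    have e : dg1 (∅ : Finset (V × V)) v = 0 := by simp [dg1]
    omega
  · have := h2 v
    have e : dg2 (∅ : Finset (V × V)) v = 0 := by simp [dg2]
    omega
  · rw [mul_comm]
    refine mul_le_mul_of_nonneg_right ?_ (Nat.cast_nonneg _)
    rw [Real.rpow_def_of_pos (by norm_num : (0 : ℝ) < 2)]
    refine Real.exp_le_exp.2 ?_
    have h4 := mul_le_mul_of_nonneg_left (exp_bound hq) hn0.le
    refine h4.trans (le_of_eq ?_)
    ring

theorem deg_bound {q : ℕ} (hq : 1 ≤ q) :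
    (pm q + 1) * pC q ≤ (128 * (kb + 2) * ka * (kb + 1) + 1) * (512 * (kb + 1) * ka ^ 2) * q ^ 32 := by
  have hpow : ∀ k : ℕ, 1 ≤ q ^ k := fun k => Nat.one_le_pow _ _ hq
  have h1 : pJ q + 1 ≤ (kb + 1) * q ^ 5 := by
    unfold pJ
    have := hpow 5
    nlinarith
  have h2 : pJ q + 2 ≤ (kb + 2) * q ^ 5 := by
    unfold pJ
    have := hpow 5
    nlinarith
  have h3 : pm q + 1 ≤ (128 * (kb + 2) * ka * (kb + 1) + 1) * q ^ 16 := by
    have a1 : pm q ≤ 128 * ((kb + 2) * q ^ 5) * (ka * q ^ 5) * (q * ((kb + 1) * q ^ 5)) := by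
      unfold pm
      gcongr
    have a2 : 128 * ((kb + 2) * q ^ 5) * (ka * q ^ 5) * (q * ((kb + 1) * q ^ 5)) =
        (128 * (kb + 2) * ka * (kb + 1)) * q ^ 16 := by ring
    have a3 := hpow 16
    rw [a2] at a1
    rw [add_mul, one_mul]
    exact Nat.add_le_add a1 a3
  have h4 : pC q ≤ (512 * (kb + 1) * ka ^ 2) * q ^ 16 := by
    have a1 : pC q ≤ 512 * q * ((kb + 1) * q ^ 5) * (ka * q ^ 5) ^ 2 := by
      unfold pC
      gcongr
    refine a1.trans (le_of_eq ?_)
    ring
  calc (pm q + 1) * pC q ≤ ((128 * (kb + 2) * ka * (kb + 1) + 1) * q ^ 16) *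
        ((512 * (kb + 1) * ka ^ 2) * q ^ 16) := Nat.mul_le_mul h3 h4
    _ = _ := by ring

/-- independent sets and closed sets -/
theorem cnt_eq (G : SimpleGraph V) (A : V → Prop) (hA : ∀ u v, G.Adj u v → (A u ↔ ¬ A v)) :
    cnt (univ.filter (fun e : V × V => G.Adj e.1 e.2 ∧ A e.1)) = numIndep G := by
  unfold cnt numIndep
  rw [← Fintype.card_subtype, ← Nat.card_eq_fintype_card]
  refine Nat.card_congr (Equiv.symm ?_)
  refine
    { toFun := fun I => ⟨univ.filter (fun v => (v ∈ I.1 ↔ A v)), ?_⟩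
      invFun := fun s => ⟨{v | (v ∈ s.1 ↔ A v)}, ?_⟩
      left_inv := ?_
      right_inv := ?_ }
  · rintro ⟨a, b⟩ he ha
    obtain ⟨h1, h2⟩ := (mem_filter.1 he).2
    have h3 := (mem_filter.1 ha).2
    refine mem_filter.2 ⟨mem_univ _, ?_⟩
    dsimp only at h1 h2 h3 ⊢
    have haI : a ∈ I.1 := h3.2 h2
    have hbA : ¬ A b := (hA a b h1).1 h2
    have hbI : b ∉ I.1 := fun hb => I.2 haI hb h1.ne h1
    exact ⟨fun h => absurd h hbI, fun h => absurd h hbA⟩
  · intro a ha b hb hab hadj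
    have ha' : a ∈ s.1 ↔ A a := ha
    have hb' : b ∈ s.1 ↔ A b := hb
    by_cases hAa : A a
    · have h1 := s.2 (a, b) (mem_filter.2 ⟨mem_univ _, hadj, hAa⟩) (ha'.2 hAa)
      exact (hA a b hadj).1 hAa (hb'.1 h1)
    · have hAb : A b := by
        by_contra hAb
        exact hAa ((hA a b hadj).2 hAb)
      have h1 := s.2 (b, a) (mem_filter.2 ⟨mem_univ _, hadj.symm, hAb⟩) (hb'.2 hAb)
      exact hAa (ha'.1 h1)
  · rintro ⟨I, hI⟩
    refine Subtype.ext ?_
    ext v
    change (v ∈ univ.filter (fun v => (v ∈ I ↔ A v)) ↔ A v) ↔ v ∈ I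
    rw [mem_filter]
    simp only [mem_univ, true_and]
    tauto
  · rintro ⟨s, hs⟩
    refine Subtype.ext ?_
    ext v
    simp only [mem_filter, mem_univ, true_and, Set.mem_ofPred_eq]
    tauto

/-- Bounded-degree sparsifiers -/
theorem main : ∃ K : ℕ, ∀ q : ℕ, 1 ≤ q → ∀ (V : Type) [Fintype V] (G : SimpleGraph V),
    G.IsBipartite → ∃ H : SimpleGraph V, H ≤ G ∧ (∀ v, (H.neighborSet v).ncard ≤ K * q ^ 32) ∧
      numIndep G ≤ numIndep H ∧
      (numIndep H : ℝ) ≤ 2 ^ ((Fintype.card V : ℝ) / q) * numIndep G := by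
  refine ⟨(128 * (kb + 2) * ka * (kb + 1) + 1) * (512 * (kb + 1) * ka ^ 2), fun q hq V _ G hG => ?_⟩
  have hmono : ∀ H : SimpleGraph V, H ≤ G → numIndep G ≤ numIndep H := by
    intro H hHG
    unfold numIndep
    refine Nat.card_le_card_of_injective
      (fun I : {I : Set V // G.IsIndepSet I} => (⟨I.1, fun a ha b hb hab h =>
        I.2 ha hb hab (hHG h)⟩ : {I : Set V // H.IsIndepSet I})) ?_
    intro I J h
    have h2 := Subtype.mk.inj h
    exact Subtype.ext h2
  rcases Nat.eq_zero_or_pos (Fintype.card V) with hn | hn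
  · refine ⟨G, le_rfl, fun v => ?_, le_rfl, ?_⟩
    · rw [Fintype.card_eq_zero_iff] at hn
      exact hn.elim v
    · rw [hn]
      simp
  · obtain ⟨A, hAG⟩ : ∃ A : V → Prop, ∀ u v, G.Adj u v → (A u ↔ ¬ A v) := by
      obtain ⟨c⟩ := hG
      refine ⟨fun v => c v = 0, fun u v huv => ?_⟩
      have h1 := c.valid huv
      have h2 : ∀ x y : Fin 2, x ≠ y → (x = 0 ↔ ¬ y = 0) := by decide
      exact h2 _ _ h1
    set GE : Finset (V × V) := univ.filter (fun e : V × V => G.Adj e.1 e.2 ∧ A e.1) with hGE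
    have hGA : ∀ e ∈ GE, A e.1 ∧ ¬ A e.2 := by
      intro e he
      obtain ⟨h1, h2⟩ := (mem_filter.1 he).2
      exact ⟨h2, (hAG _ _ h1).1 h2⟩
    obtain ⟨HE, hHE, h1, h2, h3⟩ := main_pairs hq GE A hGA hn
    set H : SimpleGraph V :=
      { Adj := fun u v => (u, v) ∈ HE ∨ (v, u) ∈ HE
        symm := ⟨fun u v h => h.symm⟩
        loopless := ⟨fun u h => by
          have h4 := hGA _ (hHE (h.elim id id))
          exact h4.2 h4.1⟩ } with hH
    have hHG : H ≤ G := by
      intro u v huv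
      rcases huv with h4 | h4
      · exact ((mem_filter.1 (hHE h4)).2).1
      · exact ((mem_filter.1 (hHE h4)).2).1.symm
    have hAH : ∀ u v, H.Adj u v → (A u ↔ ¬ A v) := fun u v huv => hAG u v (hHG huv)
    have hHEeq : univ.filter (fun e : V × V => H.Adj e.1 e.2 ∧ A e.1) = HE := by
      ext e
      rw [mem_filter]
      constructor
      · rintro ⟨_, h4 | h4, h5⟩
        · exact h4
        · exact absurd h5 (hGA _ (hHE h4)).2
      · intro he
        exact ⟨mem_univ _, Or.inl he, (hGA _ (hHE he)).1⟩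
    have hcH : cnt HE = numIndep H := by
      rw [← hHEeq, ← cnt_eq H A hAH]
      congr!
    have hcG : cnt GE = numIndep G := cnt_eq G A hAG
    refine ⟨H, hHG, fun v => ?_, hmono H hHG, ?_⟩
    · refine le_trans ?_ (deg_bound hq)
      by_cases hv : A v
      · have h4 : H.neighborSet v ⊆
            ((HE.filter (fun e => e.1 = v)).image Prod.snd : Finset V) := by
          intro u hu
          rcases hu with h5 | h5
          · exact mem_coe.2 (mem_image.2 ⟨(v, u), mem_filter.2 ⟨h5, rfl⟩, rfl⟩)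
          · exact absurd hv (hGA _ (hHE h5)).2
        calc (H.neighborSet v).ncard
            ≤ (((HE.filter (fun e => e.1 = v)).image Prod.snd : Finset V) : Set V).ncard :=
              Set.ncard_le_ncard h4 (Finset.finite_toSet _)
          _ = ((HE.filter (fun e => e.1 = v)).image Prod.snd).card := Set.ncard_coe_finset _
          _ ≤ dg1 HE v := card_image_le
          _ ≤ _ := h1 v
      · have h4 : H.neighborSet v ⊆
            ((HE.filter (fun e => e.2 = v)).image Prod.fst : Finset V) := by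
          intro u hu
          rcases hu with h5 | h5
          · exact absurd (hGA _ (hHE h5)).1 hv
          · exact mem_coe.2 (mem_image.2 ⟨(u, v), mem_filter.2 ⟨h5, rfl⟩, rfl⟩)
        calc (H.neighborSet v).ncard
            ≤ (((HE.filter (fun e => e.2 = v)).image Prod.fst : Finset V) : Set V).ncard :=
              Set.ncard_le_ncard h4 (Finset.finite_toSet _)
          _ = ((HE.filter (fun e => e.2 = v)).image Prod.fst).card := Set.ncard_coe_finset _
          _ ≤ dg2 HE v := card_image_le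
          _ ≤ _ := h2 v
    · rw [← hcH, ← hcG]
      exact h3

end Spars
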