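import Pool.Agent.Lib.Spars.Var

/-!
# Progress lemma

MP_a7c826, project Spars (owner helper30). Paper proof: /team-store/a7c826_H.md, section 2.
-/

set_option autoImplicit false
set_option linter.unusedSectionVars false

namespace Spars

open Finset Classical

variable {V : Type*} [Fintype V]

/-- closed sets -/
def Cl (H : Finset (V × V)) (s : Finset V) : Prop := ∀ e ∈ H, e.1 ∈ s → e.2 ∈ s

/-- indicator of closed sets -/
noncomputable def wH (H : Finset (V × V)) (s : Finset V) : ℝ := if Cl H s then 1 else 0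

/-- number of violated pairs -/
noncomputable def viol (D : Finset (V × V)) (s : Finset V) : ℝ :=
  ∑ e ∈ D, if e.1 ∈ s ∧ e.2 ∉ s then (1 : ℝ) else 0

/-- soft constraints for `D` -/
noncomputable def wS (H D : Finset (V × V)) (s : Finset V) : ℝ := wH H s * Real.exp (-viol D s)

theorem Cl.inter {H : Finset (V × V)} {s t : Finset V} (hs : Cl H s) (ht : Cl H t) :
    Cl H (s ∩ t) := by
  intro e he h
  rw [mem_inter] at h ⊢
  exact ⟨hs e he h.1, ht e he h.2⟩

theorem Cl.union {H : Finset (V × V)} {s t : Finset V} (hs : Cl H s) (ht : Cl H t) :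
    Cl H (s ∪ t) := by
  intro e he h
  rw [mem_union] at h ⊢
  exact h.imp (hs e he) (ht e he)

theorem wH_nonneg (H : Finset (V × V)) (s : Finset V) : 0 ≤ wH H s := by
  unfold wH
  split_ifs <;> norm_num

theorem wH_fkg (H : Finset (V × V)) : Fkg (wH H) := by
  refine ⟨wH_nonneg H, fun s t => ?_⟩
  by_cases hs : Cl H s
  · by_cases ht : Cl H t
    · unfold wH
      rw [if_pos hs, if_pos ht, if_pos (hs.inter ht), if_pos (hs.union ht)]
    · have : wH H t = 0 := if_neg ht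
      rw [this, mul_zero]
      exact mul_nonneg (wH_nonneg _ _) (wH_nonneg _ _)
  · have : wH H s = 0 := if_neg hs
    rw [this, zero_mul]
    exact mul_nonneg (wH_nonneg _ _) (wH_nonneg _ _)

theorem viol_nonneg (D : Finset (V × V)) (s : Finset V) : 0 ≤ viol D s :=
  sum_nonneg fun e _ => by split_ifs <;> norm_num

theorem viol_submod (D : Finset (V × V)) (s t : Finset V) :
    viol D (s ∩ t) + viol D (s ∪ t) ≤ viol D s + viol D t := by
  unfold viol
  rw [← sum_add_distrib, ← sum_add_distrib]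
  refine sum_le_sum fun e _ => ?_
  by_cases h1 : e.1 ∈ s <;> by_cases h2 : e.2 ∈ s <;> by_cases h3 : e.1 ∈ t <;>
    by_cases h4 : e.2 ∈ t <;> simp [h1, h2, h3, h4]

theorem wS_fkg (H D : Finset (V × V)) : Fkg (wS H D) := by
  refine ⟨fun s => mul_nonneg (wH_nonneg H s) (Real.exp_pos _).le, fun s t => ?_⟩
  unfold wS
  have h1 := (wH_fkg H).2 s t
  have h2 : Real.exp (-viol D s) * Real.exp (-viol D t) ≤
      Real.exp (-viol D (s ∩ t)) * Real.exp (-viol D (s ∪ t)) := by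
    rw [← Real.exp_add, ← Real.exp_add]
    exact Real.exp_le_exp.2 (by linarith [viol_submod D s t])
  calc wH H s * Real.exp (-viol D s) * (wH H t * Real.exp (-viol D t))
      = wH H s * wH H t * (Real.exp (-viol D s) * Real.exp (-viol D t)) := by ring
    _ ≤ wH H (s ∩ t) * wH H (s ∪ t) * (Real.exp (-viol D (s ∩ t)) * Real.exp (-viol D (s ∪ t))) :=
        mul_le_mul h1 h2 (mul_nonneg (Real.exp_pos _).le (Real.exp_pos _).le)
          (mul_nonneg (wH_nonneg _ _) (wH_nonneg _ _))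
    _ = _ := by ring

theorem wS_le (H D : Finset (V × V)) (s : Finset V) : wS H D s ≤ wH H s := by
  unfold wS
  calc wH H s * Real.exp (-viol D s) ≤ wH H s * 1 :=
        mul_le_mul_of_nonneg_left (Real.exp_le_one_iff.2 (by linarith [viol_nonneg D s]))
          (wH_nonneg _ _)
    _ = wH H s := mul_one _

theorem wH_union_le (H D : Finset (V × V)) (s : Finset V) : wH (H ∪ D) s ≤ wS H D s := by
  by_cases hs : Cl (H ∪ D) s
  · have h1 : Cl H s := fun e he => hs e (mem_union_left _ he)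
    have h2 : viol D s = 0 := by
      unfold viol
      refine sum_eq_zero fun e he => ?_
      rw [if_neg]
      rintro ⟨h3, h4⟩
      exact h4 (hs e (mem_union_right _ he) h3)
    unfold wS wH
    rw [if_pos hs, if_pos h1, h2]
    simp
  · have : wH (H ∪ D) s = 0 := if_neg hs
    rw [this]
    exact (wS_fkg H D).1 s

theorem wH_empty_pos (H : Finset (V × V)) : 0 < wH H ∅ := by
  have : Cl H (∅ : Finset V) := fun e _ h => absurd h (notMem_empty _)
  unfold wH
  rw [if_pos this]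
  norm_num

theorem Zh_wH_pos (H : Finset (V × V)) (h : ℝ) : 0 < Zh (wH H) h :=
  Z_pos_of (wH_nonneg H) (wH_empty_pos H)

/-- the partition function increases with the field -/
theorem Zh_le_of_le {w : Finset V → ℝ} (hw : ∀ s, 0 ≤ w s) {h h' : ℝ} (hh : h ≤ h') :
    Zh w h ≤ Zh w h' := by
  rw [Zh_eq, Zh_eq]
  exact sum_le_sum fun s _ => mul_le_mul_of_nonneg_left
    (Real.exp_le_exp.2 (mul_le_mul_of_nonneg_left hh (Nat.cast_nonneg _))) (hw s)

theorem Zh_le_mul {w : Finset V → ℝ} (hw : ∀ s, 0 ≤ w s) {h h' : ℝ} (hh : h ≤ h') :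
    Zh w h' ≤ Zh w h * Real.exp ((h' - h) * Fintype.card V) := by
  rw [Zh_eq, Zh_eq, sum_mul]
  refine sum_le_sum fun s _ => ?_
  rw [mul_assoc, ← Real.exp_add]
  refine mul_le_mul_of_nonneg_left (Real.exp_le_exp.2 ?_) (hw s)
  have h1 : (s.card : ℝ) ≤ Fintype.card V := by exact_mod_cast card_le_univ s
  nlinarith

/-- sum over the pairs of a function of one coordinate -/
theorem sum_fst_le (D : Finset (V × V)) (C : ℕ) (π : V × V → V)
    (hD : ∀ v, (D.filter (fun e => π e = v)).card ≤ C) (u : V → ℝ) (hu : ∀ v, 0 ≤ u v) :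
    ∑ e ∈ D, u (π e) ≤ C * ∑ v, u v := by
  rw [← sum_fiberwise D π (fun e => u (π e)), mul_sum]
  refine sum_le_sum fun v _ => ?_
  have : ∑ e ∈ D.filter (fun e => π e = v), u (π e) = ∑ e ∈ D.filter (fun e => π e = v), u v :=
    sum_congr rfl fun e he => by rw [(mem_filter.1 he).2]
  rw [this, sum_const, nsmul_eq_mul]
  exact mul_le_mul_of_nonneg_right (by exact_mod_cast hD v) (hu v)

theorem E_viol (w : Finset V → ℝ) (h : ℝ) (D : Finset (V × V)) :
    Eh w h (viol D) = ∑ e ∈ D, (ph w h e.1 * (1 - ph w h e.2) - Cov w h e.1 e.2) := by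
  unfold viol
  have : Eh w h (fun s => ∑ e ∈ D, if e.1 ∈ s ∧ e.2 ∉ s then (1 : ℝ) else 0) =
      ∑ e ∈ D, Eh w h (fun s => if e.1 ∈ s ∧ e.2 ∉ s then (1 : ℝ) else 0) := E_sum _ _
  rw [this]
  refine sum_congr rfl fun e _ => ?_
  have h2 : Eh w h (fun s => if e.1 ∈ s ∧ e.2 ∉ s then (1 : ℝ) else 0) =
      Eh w h (fun s => (if e.1 ∈ s then (1 : ℝ) else 0) - if e.1 ∈ s ∧ e.2 ∈ s then 1 else 0) := by
    congr 1
    funext s
    by_cases h1 : e.1 ∈ s <;> by_cases h2 : e.2 ∈ s <;> simp [h1, h2]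
  rw [h2]
  have h3 : Eh w h (fun s => (if e.1 ∈ s then (1 : ℝ) else 0) - if e.1 ∈ s ∧ e.2 ∈ s then 1 else 0) =
      Eh w h (fun s => if e.1 ∈ s then (1 : ℝ) else 0) -
        Eh w h (fun s => if e.1 ∈ s ∧ e.2 ∈ s then 1 else 0) := E_sub
  rw [h3]
  have h4 : Eh w h (fun s => if e.1 ∈ s then (1 : ℝ) else 0) = ph w h e.1 := rfl
  rw [h4]
  unfold Cov
  ring

/-- the energy is at most the entropy loss -/
theorem E_viol_le (H D : Finset (V × V)) (h : ℝ) :
    Eh (wS H D) h (viol D) ≤ Real.log (Zh (wH H) h) - Real.log (Zh (wS H D) h) := by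
  have hw := (wS_fkg H D).1
  have hZ : 0 < Zh (wS H D) h := by
    refine Z_pos_of hw (s := ∅) ?_
    unfold wS
    exact mul_pos (wH_empty_pos H) (Real.exp_pos _)
  have hZ0 : 0 < Z (wS H D) (fun _ => h) := hZ
  have h1 := jensen (f := viol D) hw hZ0
  have h2 : Zh (wS H D) h * Eh (wS H D) h (fun s => Real.exp (viol D s)) = Zh (wH H) h := by
    unfold Eh E Zh
    rw [mul_div_cancel₀ _ hZ0.ne']
    unfold Z
    refine sum_congr rfl fun s _ => ?_
    unfold wS
    have : Real.exp (-viol D s) * Real.exp (viol D s) = 1 := by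
      rw [← Real.exp_add, neg_add_cancel, Real.exp_zero]
    calc wH H s * Real.exp (-viol D s) * Real.exp (∑ v ∈ s, h) * Real.exp (viol D s)
        = wH H s * Real.exp (∑ v ∈ s, h) * (Real.exp (-viol D s) * Real.exp (viol D s)) := by ring
      _ = _ := by rw [this, mul_one]
  have h3 : Real.log (Zh (wS H D) h) + Eh (wS H D) h (viol D) ≤ Real.log (Zh (wH H) h) := by
    have h4 : Zh (wS H D) h * Real.exp (Eh (wS H D) h (viol D)) ≤ Zh (wH H) h := by
      rw [← h2]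
      exact mul_le_mul_of_nonneg_left h1 hZ.le
    have := Real.log_le_log (mul_pos hZ (Real.exp_pos _)) h4
    rwa [Real.log_mul hZ.ne' (Real.exp_pos _).ne', Real.log_exp] at this
  linarith

/-- Progress lemma -/
theorem progress (H D : Finset (V × V)) {h0 δ θ ρ : ℝ} {C : ℕ} (hδ : 0 < δ) (hδ1 : δ ≤ 1)
    (hθ : 0 < θ) (hθ1 : θ ≤ 1) (hρ : 0 < ρ) (hρ1 : ρ ≤ 1)
    (hC : 4 / (ρ * θ * (ρ * θ * δ / 8)) ≤ C) (hn : 0 < Fintype.card V)
    (hD1 : ∀ v, (D.filter (fun e => e.1 = v)).card ≤ C)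
    (hD2 : ∀ v, (D.filter (fun e => e.2 = v)).card ≤ C)
    (hD : C * ρ * Fintype.card V ≤ D.card)
    (hP : ∀ e ∈ D, θ ≤ ph (wH H) (h0 - δ) e.1 * (1 - ph (wH H) (h0 + δ) e.2)) :
    ρ * θ * δ / 8 * Fintype.card V <
      Real.log (Zh (wH H) h0) - Real.log (Zh (wH (H ∪ D)) h0) := by
  by_contra hno
  push Not at hno
  set c : ℝ := ρ * θ * δ / 8 with hc
  set n : ℝ := (Fintype.card V : ℝ) with hnn
  have hn0 : 0 < n := by rw [hnn]; exact_mod_cast hn
  have hρθ : 0 < ρ * θ := mul_pos hρ hθ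
  have hρθ1 : ρ * θ ≤ 1 := by nlinarith
  have hc0 : 0 < c := by rw [hc]; positivity
  have hc1 : c ≤ δ / 8 := by
    rw [hc]
    have : ρ * θ * δ ≤ 1 * δ := mul_le_mul_of_nonneg_right hρθ1 hδ.le
    linarith
  have hw := wH_fkg H
  have hw1 := wS_fkg H D
  have hZ1 : ∀ h, 0 < Zh (wS H D) h := fun h => by
    refine Z_pos_of hw1.1 (s := ∅) ?_
    unfold wS
    exact mul_pos (wH_empty_pos H) (Real.exp_pos _)
  obtain ⟨h, hh1, hh2, hvar⟩ := exists_var_le (w := wS H D) hw1.1 (hZ1 h0)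
    (by linarith : h0 < h0 + c)
  rw [add_sub_cancel_left] at hvar
  -- comparison of the partition functions at `h`
  have hZw := Zh_wH_pos H
  have hZw' := Zh_wH_pos (H ∪ D)
  have b1 : Real.log (Zh (wH H) h) ≤ Real.log (Zh (wH H) h0) + (h - h0) * n := by
    have := Real.log_le_log (hZw h) (Zh_le_mul (w := wH H) hw.1 hh1.le)
    rwa [Real.log_mul (hZw h0).ne' (Real.exp_pos _).ne', Real.log_exp] at this
  have b2 : Real.log (Zh (wH (H ∪ D)) h0) ≤ Real.log (Zh (wH (H ∪ D)) h) :=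
    Real.log_le_log (hZw' h0) (Zh_le_of_le (wH_nonneg _) hh1.le)
  have b3 : Real.log (Zh (wH (H ∪ D)) h) ≤ Real.log (Zh (wS H D) h) :=
    Real.log_le_log (hZw' h) (Z_mono (wH_union_le H D))
  have b4 : Real.log (Zh (wH H) h) - Real.log (Zh (wS H D) h) ≤ 2 * c * n := by
    have : (h - h0) * n ≤ c * n := mul_le_mul_of_nonneg_right (by linarith) hn0.le
    linarith
  have hl : 0 < δ - c := by linarith
  have hcmp := compare (w := wH H) (w' := wS H D) (h := h) hw hw1.1 (wS_le H D) (hZ1 h) hl b4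
  have hX := E_viol_le H D h
  rw [E_viol] at hX
  set u : V → ℝ := fun v => max (ph (wH H) (h - (δ - c)) v - ph (wS H D) h v) 0 with hu
  set z : V → ℝ := fun v => max (ph (wS H D) h v - ph (wH H) (h + (δ - c)) v) 0 with hz
  have hu0 : ∀ v, 0 ≤ u v := fun v => le_max_right _ _
  have hz0 : ∀ v, 0 ≤ z v := fun v => le_max_right _ _
  have hedge : ∀ e ∈ D, θ - u e.1 - z e.2 ≤
      ph (wS H D) h e.1 * (1 - ph (wS H D) h e.2) := by
    intro e he
    have a1 : ph (wH H) (h0 - δ) e.1 ≤ ph (wH H) (h - (δ - c)) e.1 :=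
      ph_mono hw (hZw _) (by linarith) _
    have a2 : ph (wH H) (h + (δ - c)) e.2 ≤ ph (wH H) (h0 + δ) e.2 :=
      ph_mono hw (hZw _) (by linarith) _
    have a3 : ph (wH H) (h - (δ - c)) e.1 - ph (wS H D) h e.1 ≤ u e.1 := le_max_left _ _
    have a4 : ph (wS H D) h e.2 - ph (wH H) (h + (δ - c)) e.2 ≤ z e.2 := le_max_left _ _
    have a5 := hP e he
    have a6 : 0 ≤ ph (wH H) (h0 - δ) e.1 := p_nonneg hw.1 _
    have a7 : ph (wH H) (h0 - δ) e.1 ≤ 1 := p_le_one hw.1 (hZw _) _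
    have a8 : 0 ≤ ph (wS H D) h e.2 := p_nonneg hw1.1 _
    have a9 : ph (wS H D) h e.2 ≤ 1 := p_le_one hw1.1 (hZ1 _) _
    have a10 := hu0 e.1
    have a11 := hz0 e.2
    have c1 : (ph (wH H) (h0 - δ) e.1 - u e.1) * (1 - ph (wS H D) h e.2) ≤
        ph (wS H D) h e.1 * (1 - ph (wS H D) h e.2) :=
      mul_le_mul_of_nonneg_right (by linarith) (by linarith)
    have c2 : ph (wH H) (h0 - δ) e.1 * (1 - ph (wH H) (h0 + δ) e.2 - z e.2) ≤
        ph (wH H) (h0 - δ) e.1 * (1 - ph (wS H D) h e.2) :=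
      mul_le_mul_of_nonneg_left (by linarith) a6
    have c3 : u e.1 * (1 - ph (wS H D) h e.2) ≤ u e.1 := by nlinarith
    have c4 : ph (wH H) (h0 - δ) e.1 * z e.2 ≤ z e.2 := by nlinarith
    nlinarith
  have s1 : ∑ e ∈ D, u e.1 ≤ C * ∑ v, u v := sum_fst_le D C Prod.fst hD1 u hu0
  have s2 : ∑ e ∈ D, z e.2 ≤ C * ∑ v, z v := sum_fst_le D C Prod.snd hD2 z hz0
  have s3 : ∑ e ∈ D, Cov (wS H D) h e.1 e.2 ≤ n / c := (sum_Cov_le hw1 (hZ1 h) D).trans hvar
  have s4 : θ * D.card - C * (∑ v, z v + ∑ v, u v) - n / c ≤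
      ∑ e ∈ D, (ph (wS H D) h e.1 * (1 - ph (wS H D) h e.2) - Cov (wS H D) h e.1 e.2) := by
    have : ∑ e ∈ D, (θ - u e.1 - z e.2) ≤
        ∑ e ∈ D, ph (wS H D) h e.1 * (1 - ph (wS H D) h e.2) := sum_le_sum hedge
    rw [sum_sub_distrib, sum_sub_distrib, sum_const, nsmul_eq_mul] at this
    rw [sum_sub_distrib]
    linarith
  have hC0 : (0 : ℝ) ≤ C := Nat.cast_nonneg _
  have s5 : 2 * c * n / (δ - c) ≤ ρ * θ / 2 * n := by
    rw [div_le_iff₀ hl]
    have : 2 * c ≤ ρ * θ / 2 * (δ - c) := by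
      have : ρ * θ / 2 * (7 * δ / 8) ≤ ρ * θ / 2 * (δ - c) :=
        mul_le_mul_of_nonneg_left (by linarith) (by positivity)
      have h2 : 2 * c = ρ * θ * δ / 4 := by rw [hc]; ring
      nlinarith [mul_pos hρθ hδ]
    nlinarith
  have s6 : C * (∑ v, z v + ∑ v, u v) ≤ C * (ρ * θ / 2 * n) :=
    mul_le_mul_of_nonneg_left (hcmp.trans s5) hC0
  have s7 : θ * (C * ρ * n) ≤ θ * D.card := mul_le_mul_of_nonneg_left hD hθ.le
  have s8 : 2 / c * n ≤ C * (ρ * θ / 2 * n) := by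
    have h2 : 4 / (ρ * θ * c) * (ρ * θ / 2 * n) ≤ C * (ρ * θ / 2 * n) :=
      mul_le_mul_of_nonneg_right hC (by positivity)
    have h3 : 4 / (ρ * θ * c) * (ρ * θ / 2 * n) = 2 / c * n := by
      field_simp
      ring
    linarith
  have s9 : n / c ≤ 2 * c * n := by
    have : 2 / c * n = 2 * (n / c) := by ring
    nlinarith
  have hc8 : c ≤ 1 / 8 := by linarith
  rw [div_le_iff₀ hc0] at s9
  nlinarith [mul_pos hc0 hn0]

end Spars
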