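import Pool.Agent.Lib.Spars.Corr

/-!
# Variance of the size and covariances

MP_a7c826, project Spars (owner helper30). Paper proof: /team-store/a7c826_H.md, section 1.
-/

set_option autoImplicit false
set_option linter.unusedSectionVars false

namespace Spars

open Finset

variable {V : Type*} [Fintype V] [DecidableEq V]
variable {w w' : Finset V → ℝ} {f g : Finset V → ℝ}

/-- expectation in a constant field -/
noncomputable def Eh (w : Finset V → ℝ) (h : ℝ) (f : Finset V → ℝ) : ℝ := E w (fun _ => h) f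

/-- variance of the size -/
noncomputable def Var (w : Finset V → ℝ) (h : ℝ) : ℝ :=
  Eh w h (fun s => (s.card : ℝ) ^ 2) - (Eh w h (fun s => (s.card : ℝ))) ^ 2

/-- covariance -/
noncomputable def Cov (w : Finset V → ℝ) (h : ℝ) (u v : V) : ℝ :=
  Eh w h (fun s => if u ∈ s ∧ v ∈ s then 1 else 0) - ph w h u * ph w h v

theorem Eh_eq (w : Finset V → ℝ) (h : ℝ) (f : Finset V → ℝ) :
    Eh w h f = (∑ s, w s * Real.exp (s.card * h) * f s) / Zh w h := by
  unfold Eh E Zh
  congr 1
  refine sum_congr rfl fun s _ => ?_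
  rw [sum_const, nsmul_eq_mul]

theorem hasDeriv_num (w : Finset V → ℝ) (f : Finset V → ℝ) (h : ℝ) :
    HasDerivAt (fun h => ∑ s : Finset V, w s * Real.exp (s.card * h) * f s)
      (∑ s : Finset V, w s * Real.exp (s.card * h) * (s.card * f s)) h := by
  have h1 : ∀ s ∈ (univ : Finset (Finset V)),
      HasDerivAt (fun h => w s * Real.exp (s.card * h) * f s)
        (w s * Real.exp (s.card * h) * (s.card * f s)) h := by
    intro s _
    have h2 : HasDerivAt (fun h : ℝ => (s.card : ℝ) * h) (s.card : ℝ) h := by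
      simpa using (hasDerivAt_id h).const_mul (s.card : ℝ)
    exact (((h2.exp).const_mul (w s)).mul_const (f s)).congr_deriv (by ring)
  have := HasDerivAt.fun_sum h1
  exact this

theorem hasDeriv_mean (hw : ∀ s, 0 ≤ w s) {h0 : ℝ} (hZ : 0 < Zh w h0) (h : ℝ) :
    HasDerivAt (fun h => Eh w h (fun s => (s.card : ℝ))) (Var w h) h := by
  have hZh : 0 < Zh w h := Zh_pos_iff hw hZ
  have h1 := hasDeriv_num w (fun s => (s.card : ℝ)) h
  have h2 : HasDerivAt (fun h => Zh w h) (∑ s : Finset V, w s * Real.exp (s.card * h) * s.card) h := by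
    have h3 := hasDeriv_num w (fun _ => (1 : ℝ)) h
    have e1 : (fun h => ∑ s : Finset V, w s * Real.exp (s.card * h) * (1 : ℝ)) = fun h => Zh w h := by
      funext h
      rw [Zh_eq]
      simp
    have e2 : (∑ s : Finset V, w s * Real.exp (s.card * h) * ((s.card : ℝ) * 1)) =
        ∑ s : Finset V, w s * Real.exp (s.card * h) * s.card := by simp
    rw [e1, e2] at h3
    exact h3
  have e : (fun h => Eh w h (fun s => (s.card : ℝ))) =
      fun h => (∑ s : Finset V, w s * Real.exp (s.card * h) * s.card) / Zh w h := by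
    funext h
    exact Eh_eq w h _
  rw [e]
  refine (h1.div h2 hZh.ne').congr_deriv ?_
  unfold Var
  rw [Eh_eq, Eh_eq]
  have h4 := hZh.ne'
  have e2 : (∑ s : Finset V, w s * Real.exp (s.card * h) * (s.card : ℝ) ^ 2) =
      ∑ s : Finset V, w s * Real.exp (s.card * h) * ((s.card : ℝ) * s.card) :=
    sum_congr rfl fun s _ => by ring
  rw [e2]
  generalize (∑ s : Finset V, w s * Real.exp (s.card * h) * ((s.card : ℝ) * s.card)) = a
  generalize (∑ s : Finset V, w s * Real.exp (s.card * h) * (s.card : ℝ)) = b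
  field_simp

/-- mean value theorem for the mean size -/
theorem exists_var_le (hw : ∀ s, 0 ≤ w s) {h1 h2 : ℝ} (hZ : 0 < Zh w h1) (h12 : h1 < h2) :
    ∃ h, h1 < h ∧ h < h2 ∧ Var w h ≤ Fintype.card V / (h2 - h1) := by
  obtain ⟨h, hh, he⟩ := exists_hasDerivAt_eq_slope (fun h => Eh w h (fun s => (s.card : ℝ)))
    (fun h => Var w h) h12
    (fun x _ => (hasDeriv_mean hw hZ x).continuousAt.continuousWithinAt)
    (fun x _ => hasDeriv_mean hw hZ x)
  refine ⟨h, hh.1, hh.2, ?_⟩
  rw [he]
  refine div_le_div_of_nonneg_right ?_ (by linarith)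
  have hZ2 : 0 < Z w (fun _ => h2) := Zh_pos_iff hw hZ
  have a1 : Eh w h2 (fun s => (s.card : ℝ)) ≤ Fintype.card V := by
    unfold Eh
    rw [← E_const (w := w) (y := fun _ => h2) hZ2 (Fintype.card V : ℝ)]
    exact E_mono hw fun s _ => by exact_mod_cast card_le_univ s
  have a2 : 0 ≤ Eh w h1 (fun s => (s.card : ℝ)) := E_nonneg hw fun s => Nat.cast_nonneg _
  linarith

theorem card_eq_sum (s : Finset V) : (s.card : ℝ) = ∑ v, if v ∈ s then (1 : ℝ) else 0 := by
  rw [sum_ite_mem, univ_inter, sum_const, nsmul_eq_mul, mul_one]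

theorem Var_eq (w : Finset V → ℝ) (h : ℝ) : Var w h = ∑ u, ∑ v, Cov w h u v := by
  have e1 : Eh w h (fun s => (s.card : ℝ)) = ∑ v, ph w h v := by
    unfold Eh ph p
    rw [show (fun s : Finset V => (s.card : ℝ)) = fun s => ∑ v, if v ∈ s then (1 : ℝ) else 0 from
      funext card_eq_sum, E_sum]
  have e2 : Eh w h (fun s => (s.card : ℝ) ^ 2) =
      ∑ u, ∑ v, Eh w h (fun s => if u ∈ s ∧ v ∈ s then 1 else 0) := by
    unfold Eh
    have : (fun s : Finset V => (s.card : ℝ) ^ 2) =
        fun s => ∑ u, ∑ v, if u ∈ s ∧ v ∈ s then (1 : ℝ) else 0 := by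
      funext s
      rw [card_eq_sum, sq, sum_mul_sum]
      refine sum_congr rfl fun u _ => sum_congr rfl fun v _ => ?_
      by_cases h1 : u ∈ s <;> by_cases h2 : v ∈ s <;> simp [h1, h2]
    rw [this, E_sum]
    refine sum_congr rfl fun u _ => ?_
    rw [E_sum]
  unfold Var Cov
  rw [e1, e2, sq, sum_mul_sum, ← sum_sub_distrib]
  exact sum_congr rfl fun u _ => by rw [← sum_sub_distrib]

theorem Cov_nonneg (hw : Fkg w) {h : ℝ} (hZ : 0 < Zh w h) (u v : V) : 0 ≤ Cov w h u v :=
  sub_nonneg.2 (cov_nonneg hw hZ u v)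

/-- a set of pairs has total covariance at most the variance -/
theorem sum_Cov_le (hw : Fkg w) {h : ℝ} (hZ : 0 < Zh w h) (D : Finset (V × V)) :
    ∑ e ∈ D, Cov w h e.1 e.2 ≤ Var w h := by
  rw [Var_eq, ← Fintype.sum_prod_type']
  exact sum_le_sum_of_subset_of_nonneg (subset_univ D) fun e _ _ => Cov_nonneg hw hZ _ _

end Spars
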